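import Pool.Agent.HMU.Spec
import Pool.Agent.HMS.SymL

/-!
# HMU, module BlkL: the left half of a period
-/

set_option autoImplicit false

namespace Pool.Agent.HMU

open Polynomial Matrix Pool.Agent.HMA Pool.Agent.HMT Pool.Agent.HMS

namespace BlkLAux

/-- The row sums are equal to the first number. -/
def RS (t : T3) : Prop := ∀ i, t.1 i 0 + t.1 i 1 + t.1 i 2 = t.2.1

theorem RS_mul (s t : T3) (hs : RS s) (ht : RS t) : RS (s * t) := by
  intro i
  have h0 := ht 0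
  have h1 := ht 1
  have h2 := ht 2
  have hi := hs i
  simp only [Prod.fst_mul, Prod.snd_mul, Matrix.mul_apply, Fin.sum_univ_three]
  rw [← hi]
  linear_combination s.1 i 0 * h0 + s.1 i 1 * h1 + s.1 i 2 * h2

theorem RS_paT (d : Bool) (ξ A B : ℝ) : RS (pa true d ξ A B) := by
  intro i
  fin_cases i <;> simp [pa, rg] <;> ring

theorem RS_paF (d : Bool) (ξ A B : ℝ) : RS (pa false d ξ A B) := by
  intro i
  fin_cases i
  · simp [pa, rg]
  · simp [pa, rg]; ring
  · simp [pa, rg]; ring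

theorem kap_add (d : Bool) (ξ : ℝ) : ξ + ξ⁻¹ = kap d ξ + kap (!d) ξ := by
  cases d <;> simp [kap, add_comm]

theorem kap_mul (d : Bool) (ξ : ℝ) (h : 0 < ξ) : kap d ξ * kap (!d) ξ = 1 := by
  have := h.ne'
  cases d <;> simp [kap, this]

theorem rho_paT (d : Bool) (ξ A B : ℝ) : rho (pa true d ξ A B).1 =
    !![kap (!d) ξ * A, kap (!d) ξ * A + B; 0, kap d ξ * A] := by
  have h := kap_add d ξ
  ext i j
  fin_cases i <;> fin_cases j <;> simp [pa, rg, rho, h] <;> ring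

theorem rho_paF (d : Bool) (ξ A B : ℝ) : rho (pa false d ξ A B).1 =
    !![kap (!d) ξ * A + B, 0; kap d ξ * A, kap d ξ * A + B] := by
  have h := kap_add d ξ
  ext i j
  fin_cases i <;> fin_cases j <;> simp [pa, rg, rho, h] <;> ring

theorem n_paT (d : Bool) (ξ A B : ℝ) :
    (pa true d ξ A B).2.1 = kap (!d) ξ * A ∧ (pa true d ξ A B).2.2 = kap d ξ * A := by
  have h := kap_add d ξ
  constructor <;> simp [pa, rg, h] <;> ring

theorem n_paF (d : Bool) (ξ A B : ℝ) :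
    (pa false d ξ A B).2.1 = kap d ξ * A + B ∧ (pa false d ξ A B).2.2 = kap (!d) ξ * A + B := by
  have h := kap_add d ξ
  constructor <;> simp [pa, rg, h] <;> ring

theorem ev_mul (ξ : ℝ) (f g : ℤ[X]) : ev ξ (f * g) = ev ξ f * ev ξ g := by
  unfold ev; rw [map_mul]

theorem ev_add (ξ : ℝ) (f g : ℤ[X]) : ev ξ (f + g) = ev ξ f + ev ξ g := by
  unfold ev; rw [map_add]

theorem ev_sub (ξ : ℝ) (f g : ℤ[X]) : ev ξ (f - g) = ev ξ f - ev ξ g := by
  unfold ev; rw [map_sub]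

theorem ev_X (ξ : ℝ) : ev ξ X = ξ + ξ⁻¹ := by
  unfold ev; rw [aeval_X]

end BlkLAux

open BlkLAux in
/-- **BlkL** (the left half of a period) -/
theorem tBlkL : S_BlkL := by
  intro d ξ x y z hξ
  have hk := kap_mul d ξ hξ
  have ha := kap_add d ξ
  have r1 : RS (pa true (!d) ξ (ev ξ z.1) (ev ξ z.2)) := RS_paT _ _ _ _
  have r2 : RS (pa false d ξ (ev ξ y.1) (ev ξ y.2)) := RS_paF _ _ _ _
  have r3 : RS (pa true d ξ (ev ξ x.1) (ev ξ x.2)) := RS_paT _ _ _ _
  refine ⟨RS_mul _ _ r1 (RS_mul _ _ r2 r3), ?_, ?_, ?_⟩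
  · have e : rho (tL d ξ x y z).1 = rho (pa true (!d) ξ (ev ξ z.1) (ev ξ z.2)).1 *
        (rho (pa false d ξ (ev ξ y.1) (ev ξ y.2)).1 *
          rho (pa true d ξ (ev ξ x.1) (ev ξ x.2)).1) := by
      unfold tL
      rw [Prod.fst_mul, Prod.fst_mul, SymLAux.rho_mul _ _ _ r1, SymLAux.rho_mul _ _ _ r2]
    rw [e, rho_paT, rho_paF, rho_paT, Bool.not_not]
    have hX := ev_X ξ
    rw [ha] at hX
    ext i j
    fin_cases i <;> fin_cases j <;>
      simp [ga, Lm, pm, ev_mul, ev_add, ev_sub, hX, Matrix.mul_apply, Fin.sum_univ_two]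
    · generalize kap d ξ = k at *
      generalize kap (!d) ξ = l at *
      linear_combination (ev ξ x.1 * (ev ξ z.1 * (l * ev ξ y.1 + ev ξ y.2) + ev ξ y.1 * (k * ev ξ z.1 + ev ξ z.2))) * hk
    · generalize kap d ξ = k at *
      generalize kap (!d) ξ = l at *
      linear_combination (-(k * ev ξ x.1 * ev ξ y.1 * ev ξ z.1)) * hk
    · generalize kap d ξ = k at *
      generalize kap (!d) ξ = l at *
      linear_combination (ev ξ x.1 * ev ξ y.1 * ev ξ z.1 * l) * hk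
    · generalize kap d ξ = k at *
      generalize kap (!d) ξ = l at *
      linear_combination (ev ξ z.1 * ((k + l) * ev ξ x.1 * ev ξ y.1 + ev ξ y.1 * ev ξ x.2 +
        ev ξ x.1 * ev ξ y.2)) * hk
  · unfold tL
    simp only [Prod.snd_mul, Prod.fst_mul, (n_paT _ _ _ _).1, (n_paF _ _ _ _).1, Bool.not_not,
      ev_mul, phi]
    linear_combination (ev ξ z.1 * ev ξ x.1 * (kap d ξ * ev ξ y.1 + ev ξ y.2)) * hk
  · unfold tL
    simp only [Prod.snd_mul, (n_paT _ _ _ _).2, (n_paF _ _ _ _).2, ev_mul, phi]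
    linear_combination (ev ξ z.1 * ev ξ x.1 * (kap (!d) ξ * ev ξ y.1 + ev ξ y.2)) * hk

end Pool.Agent.HMU
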