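import Pool.Agent.HMU.Spec

/-!
# HMU, module BlkR: the right half of a period
-/

set_option autoImplicit false

namespace Pool.Agent.HMU

open Polynomial Matrix Pool.Agent.HMA Pool.Agent.HMT Pool.Agent.HMS

namespace BlkRAux

/-- The matrices of the three factors. -/
def m0 (k k' A B : ℝ) : Matrix (Fin 3) (Fin 3) ℝ :=
  !![k * A, 0, 0; 0, k * A - (k * A + B), k * A + B; 0, k * A - ((k + k') * A + B), (k + k') * A + B]

def m1 (k k' A B : ℝ) : Matrix (Fin 3) (Fin 3) ℝ :=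
  !![(k + k') * A + B, -(k * A), 0; (k + k') * A + B - (k * A + B), k * A + B - k * A, 0;
    0, 0, (k + k') * A + B - k * A]

theorem rows (k k' A₀ B₀ A₁ B₁ A₂ B₂ : ℝ) (i : Fin 3) :
    (m0 k' k A₂ B₂ * (m1 k k' A₁ B₁ * m0 k k' A₀ B₀)) i 0 +
      (m0 k' k A₂ B₂ * (m1 k k' A₁ B₁ * m0 k k' A₀ B₀)) i 1 +
      (m0 k' k A₂ B₂ * (m1 k k' A₁ B₁ * m0 k k' A₀ B₀)) i 2 =
      k' * A₂ * (((k + k') * A₁ + B₁ - k * A₁) * (k * A₀)) := by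
  fin_cases i <;> simp [m0, m1, Matrix.mul_apply, Fin.sum_univ_three] <;> ring

theorem rhos (k k' A₀ B₀ A₁ B₁ A₂ B₂ : ℝ) (hk : k * k' = 1) :
    rho (m0 k' k A₂ B₂ * (m1 k k' A₁ B₁ * m0 k k' A₀ B₀)) =
      !![((k + k') * (A₁ * A₀) + A₁ * B₀ + A₀ * B₁) * A₂, k * (A₀ * A₁ * A₂);
        k' * ((k + k') * (((k + k') * (A₀ * A₁) + A₀ * B₁ + A₁ * B₀) * A₂) +
          ((k + k') * (A₀ * A₁) + A₀ * B₁ + A₁ * B₀) * B₂ + A₂ * (B₀ * B₁ - A₀ * A₁)),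
        ((k + k') * (A₁ * A₂) + A₁ * B₂ + A₂ * B₁) * A₀] := by
  have hk0 : k ≠ 0 := left_ne_zero_of_mul_eq_one hk
  have hk' : k' = k⁻¹ := eq_inv_of_mul_eq_one_right hk
  subst hk'
  ext i j
  fin_cases i <;> fin_cases j <;>
    simp [rho, m0, m1, Matrix.mul_apply, Fin.sum_univ_three] <;> field_simp <;> ring

end BlkRAux

open BlkRAux in
theorem tBlkR : S_BlkR := by
  intro d ξ x y z hξ
  have h0 : ξ ≠ 0 := hξ.ne'
  have hk : kap d ξ * kap (!d) ξ = 1 := by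
    cases d <;> simp [kap, h0]
  have hs : ξ + ξ⁻¹ = kap d ξ + kap (!d) ξ := by
    cases d <;> simp [kap, add_comm]
  have hs' : ξ + ξ⁻¹ = kap (!d) ξ + kap d ξ := by
    rw [hs, add_comm]
  have e1 : (tR d ξ x y z).1 = m0 (kap (!d) ξ) (kap d ξ) (ev ξ z.1) (ev ξ z.2) *
      (m1 (kap d ξ) (kap (!d) ξ) (ev ξ y.1) (ev ξ y.2) *
        m0 (kap d ξ) (kap (!d) ξ) (ev ξ x.1) (ev ξ x.2)) := by
    have a0 : (pb false (!d) ξ (ev ξ z.1) (ev ξ z.2)).1 =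
        m0 (kap (!d) ξ) (kap d ξ) (ev ξ z.1) (ev ξ z.2) := by
      unfold pb rg m0
      rw [hs']
      rfl
    have a1 : (pb true d ξ (ev ξ y.1) (ev ξ y.2)).1 =
        m1 (kap d ξ) (kap (!d) ξ) (ev ξ y.1) (ev ξ y.2) := by
      unfold pb rg m1
      rw [hs]
      rfl
    have a2 : (pb false d ξ (ev ξ x.1) (ev ξ x.2)).1 =
        m0 (kap d ξ) (kap (!d) ξ) (ev ξ x.1) (ev ξ x.2) := by
      unfold pb rg m0
      rw [hs]
      rfl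
    rw [← a0, ← a1, ← a2]
    rfl
  have e2 : (tR d ξ x y z).2.1 = kap (!d) ξ * ev ξ z.1 *
      (((kap d ξ + kap (!d) ξ) * ev ξ y.1 + ev ξ y.2 - kap d ξ * ev ξ y.1) *
        (kap d ξ * ev ξ x.1)) := by
    rw [← hs]
    rfl
  have e3 : (tR d ξ x y z).2.2 =
      ((kap (!d) ξ + kap d ξ) * ev ξ z.1 + ev ξ z.2 - (kap (!d) ξ * ev ξ z.1 + ev ξ z.2)) *
      ((kap d ξ * ev ξ y.1 + ev ξ y.2) *
        ((kap d ξ + kap (!d) ξ) * ev ξ x.1 + ev ξ x.2 - (kap d ξ * ev ξ x.1 + ev ξ x.2))) := by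
    rw [← hs, ← hs']
    rfl
  have evm : ∀ f g : ℤ[X], ev ξ (f * g) = ev ξ f * ev ξ g := fun f g => by simp [ev]
  have eva : ∀ f g : ℤ[X], ev ξ (f + g) = ev ξ f + ev ξ g := fun f g => by simp [ev]
  have evs : ∀ f g : ℤ[X], ev ξ (f - g) = ev ξ f - ev ξ g := fun f g => by simp [ev]
  have evX : ev ξ X = kap d ξ + kap (!d) ξ := by
    rw [← hs]
    simp [ev]
  refine ⟨?_, ?_, ?_, ?_⟩
  · intro i
    rw [e1, e2]
    exact rows _ _ _ _ _ _ _ _ i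
  · rw [e1, rhos _ _ _ _ _ _ _ _ hk]
    unfold ga Rm
    ext i j
    fin_cases i <;> fin_cases j <;> simp [pm, evm, eva, evs, evX]
  · rw [e2, evm]
    unfold phi
    linear_combination (ev ξ z.1 * ev ξ x.1 * (kap (!d) ξ * ev ξ y.1 + ev ξ y.2)) * hk
  · rw [e3, evm]
    unfold phi
    linear_combination (ev ξ z.1 * ev ξ x.1 * (kap d ξ * ev ξ y.1 + ev ξ y.2)) * hk

end Pool.Agent.HMU
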