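import Pool.Agent.HMU.Spec

/-! # HMU, module Chunk: cutting a word into periods -/

set_option autoImplicit false

namespace Pool.Agent.HMU

open Polynomial Matrix Pool.Agent.HMA Pool.Agent.HMT Pool.Agent.HMS

namespace ChunkAux

theorem lenSix (L : List Ltr) (k : ℕ) (h : L.length = 6 * (k + 1)) :
    ∃ (x0 x1 x2 x3 x4 x5 : Ltr) (L' : List Ltr), L = x0 :: x1 :: x2 :: x3 :: x4 :: x5 :: L' ∧
      L'.length = 6 * k := by
  rcases L with _ | ⟨x0, L⟩
  · simp at h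
  rcases L with _ | ⟨x1, L⟩
  · simp at h; omega
  rcases L with _ | ⟨x2, L⟩
  · simp at h; omega
  rcases L with _ | ⟨x3, L⟩
  · simp at h; omega
  rcases L with _ | ⟨x4, L⟩
  · simp at h; omega
  rcases L with _ | ⟨x5, L⟩
  · simp at h; omega
  refine ⟨x0, x1, x2, x3, x4, x5, L, rfl, ?_⟩
  simp only [List.length_cons] at h
  omega

end ChunkAux

open ChunkAux

theorem tChunk : S_Lt → S_Chunk := by
  intro hLt k
  induction k with
  | zero =>
    intro L d s' _ hl _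
    have h0 : L = [] := List.eq_nil_of_length_eq_zero (by omega)
    subst h0
    exact ⟨[], rfl, rfl, by simp⟩
  | succ k ih =>
    intro L d s' ha hl hp
    obtain ⟨x0, x1, x2, x3, x4, x5, L', rfl, hl'⟩ := lenSix L k hl
    obtain ⟨a0, a1, a2, a3, a4, a5, ha'⟩ := ha
    obtain ⟨c0, t0⟩ := x0
    obtain ⟨c1, t1⟩ := x1
    obtain ⟨c2, t2⟩ := x2
    obtain ⟨c3, t3⟩ := x3
    obtain ⟨c4, t4⟩ := x4
    obtain ⟨c5, t5⟩ := x5
    simp only [Bool.not_false, Bool.not_true] at a0 a1 a2 a3 a4 a5 ha'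
    subst a0 a1 a2 a3 a4 a5
    obtain ⟨p0, p1, p2, p3, p4, p5, hp'⟩ := hp
    simp only [swp, Bool.false_eq_true, if_false, if_true] at p0 p1 p2 p3 p4 p5 hp'
    have e0 := (hLt _ _ _ p0).2 rfl
    have e1 := (hLt _ _ _ p1).1 rfl
    have e2 := (hLt _ _ _ p2).2 rfl
    have e3 := (hLt _ _ _ p3).1 rfl
    have e4 := (hLt _ _ _ p4).2 rfl
    have e5 := (hLt _ _ _ p5).1 rfl
    obtain ⟨ys, hy1, hy2, hy3⟩ := ih L' d s' ha' hl' hp'
    have hD : D6 d ![t0, t1, t2, t3, t4, t5] := by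
      unfold D6
      cases d <;> simp [swp] at e0 e1 e2 e3 e4 e5 ⊢ <;> tauto
    refine ⟨![t0, t1, t2, t3, t4, t5] :: ys, by simp [hy1], ?_, ?_⟩
    · rw [List.flatMap_cons, ← hy2]
      rfl
    · intro y hy
      rcases List.mem_cons.1 hy with h | h
      · rw [h]; exact hD
      · exact hy3 y h

end Pool.Agent.HMU
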