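import Pool.Agent.HMS.Spec

/-!
# HMU, Defs: words of parallel tangles

The last case of the theorem on alternating 3-braids of tangles (MP_29c64e_gt): words whose tangles
are all parallel and whose strands do not all have the same direction. Such a word (rotated) has `6 k`
tangles in alternating columns, and the directions repeat after 6 tangles.
-/

namespace Pool.Agent.HMU

open Polynomial Matrix Pool.Agent.HMA Pool.Agent.HMT Pool.Agent.HMS

/-- The data `(A, B)` of a parallel tangle. -/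
abbrev V : Type := ℤ[X] × ℤ[X]

/-! ## Part 1: cones -/

/-- Nonnegative combinations of the `SS k`, `k + 2 i + c = N`. So `US (N + c) c` is `Uni N`, and `US N c` is `0` if
`N < c`. -/
noncomputable def US (N c : ℕ) : AddSubmonoid ℤ[X] :=
  AddSubmonoid.closure {f | ∃ k i, k + 2 * i + c = N ∧ f = SS k}

/-- `S 0 = 0`, `S (n + 1) = SS n`; `(ξ - ξ⁻¹) S n = ξ^n - ξ^(-n)`. -/
noncomputable def Sn (n : ℕ) : ℤ[X] := (sg n).1

/-- `κ A + B` (multiplicative, `σ` has the value `κ`). -/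
noncomputable def phi (c : Bool) (ξ : ℝ) (x : V) : ℝ := kap c ξ * ev ξ x.1 + ev ξ x.2

/-! ## Part 2: units -/

/-- A unit: a tangle `v` between two tangles `b`, `x` (three parallel tangles in a row), and a sign. -/
structure Un where
  c : Bool
  v : V
  b : V
  x : V

/-- A unit of rows of crossings. -/
noncomputable def sU (q : Bool × ℕ × ℕ × ℕ) : Un := ⟨q.1, sg q.2.1, sg q.2.2.1, sg q.2.2.2⟩

/-- The number of crossings. -/
def tot (l : List (Bool × ℕ × ℕ × ℕ)) : ℕ := (l.map fun q => q.2.1 + q.2.2.1 + q.2.2.2).sum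

noncomputable def eA (l : List Un) : ℤ[X] := (l.map fun u => (pm u.v u.b).1 * u.x.1).prod

noncomputable def eB (l : List Un) : ℤ[X] := (l.map fun u => (pm u.v u.x).1 * u.b.1).prod

noncomputable def eD (l : List Un) : ℤ[X] := (l.map fun u => u.b.1 * u.x.1).prod

noncomputable def eP (c : Bool) (ξ : ℝ) (l : List Un) : ℝ :=
  (l.map fun u => phi (c == u.c) ξ u.v).prod

/-- The difference of the two constant paths and the product of the numbers `n`, `n'`. -/
noncomputable def EE (ξ : ℝ) (l : List Un) : ℝ :=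
  ev ξ (eA l) + ev ξ (eB l) - ev ξ (eD l) * (eP true ξ l + eP false ξ l)

/-- All data are in the cones `KK`; `N` is the sum of the indices. -/
def UK : List Un → ℕ → Prop
  | [], N => N = 0
  | u :: l, N => ∃ E₁ E₂ E₃ M : ℕ, u.v ∈ KK E₁ ∧ u.b ∈ KK E₂ ∧ u.x ∈ KK E₃ ∧ UK l M ∧
      N = E₁ + E₂ + E₃ + M

/-! ## Part 3: periods -/

/-- The data of six consecutive tangles. -/
abbrev Pd : Type := Fin 6 → V

noncomputable def Rm (x y z : V) : Matrix (Fin 2) (Fin 2) ℤ[X] :=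
  !![(pm y x).1 * z.1, x.1 * y.1 * z.1; (pm (pm x y) z).1, (pm y z).1 * x.1]

noncomputable def Lm (x y z : V) : Matrix (Fin 2) (Fin 2) ℤ[X] :=
  !![(pm y z).1 * x.1, (pm (pm x y) z).1; x.1 * y.1 * z.1, (pm y x).1 * z.1]

noncomputable def LR (x : Pd) : Matrix (Fin 2) (Fin 2) ℤ[X] :=
  Lm (x 3) (x 4) (x 5) * Rm (x 0) (x 1) (x 2)

noncomputable def TM : List Pd → Matrix (Fin 2) (Fin 2) ℤ[X]
  | [] => 1
  | x :: l => TM l * LR x

def units : List Pd → List Un
  | [] => []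
  | x :: l => ⟨false, x 1, x 0, x 2⟩ :: ⟨true, x 4, x 5, x 3⟩ :: units l

/-- `κ` in the upper right corner, `κ⁻¹` in the lower left corner. -/
noncomputable def ga (d : Bool) (ξ : ℝ) (M : Matrix (Fin 2) (Fin 2) ℤ[X]) : Matrix (Fin 2) (Fin 2) ℝ :=
  !![ev ξ (M 0 0), kap d ξ * ev ξ (M 0 1); kap (!d) ξ * ev ξ (M 1 0), ev ξ (M 1 1)]

/-- The triples of the two halves of a period, and of a period; the first tangle is at the top. -/
noncomputable def tR (d : Bool) (ξ : ℝ) (x y z : V) : T3 :=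
  pb false (!d) ξ (ev ξ z.1) (ev ξ z.2) * (pb true d ξ (ev ξ y.1) (ev ξ y.2) *
    pb false d ξ (ev ξ x.1) (ev ξ x.2))

noncomputable def tL (d : Bool) (ξ : ℝ) (x y z : V) : T3 :=
  pa true (!d) ξ (ev ξ z.1) (ev ξ z.2) * (pa false d ξ (ev ξ y.1) (ev ξ y.2) *
    pa true d ξ (ev ξ x.1) (ev ξ x.2))

noncomputable def tp (d : Bool) (ξ : ℝ) : List Pd → T3
  | [] => 1
  | x :: l => tp d ξ l * (tL d ξ (x 3) (x 4) (x 5) * tR d ξ (x 0) (x 1) (x 2))

/-- The types of the data of a period. -/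
def PK1 (x : Pd) (p q : Fin 6 → ℕ) : Prop :=
  FullK (p 0) (q 0) (x 0) ∧ FullK (p 1) (q 1) (x 1) ∧ FullK (p 2) (q 2) (x 2) ∧
    FullK (q 3) (p 3) (x 3) ∧ FullK (q 4) (p 4) (x 4) ∧ FullK (q 5) (p 5) (x 5)

/-- The types of the data of a word: the polynomial is full of type `P`, `Q`. -/
def PK : List Pd → ℕ → ℕ → Prop
  | [], P, Q => P = 0 ∧ Q = 0
  | x :: l, P, Q => ∃ (p q : Fin 6 → ℕ) (P' Q' : ℕ), PK1 x p q ∧ PK l P' Q' ∧
      P = ∑ i, p i + 2 + P' ∧ Q = ∑ i, q i + 2 + Q'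

/-- The matrix of `k` periods: the constant paths `c₀`, `c₁` apart, the entries are in the cones, and there
is a full summand in the entry `0, 0`. -/
def MG (k P Q : ℕ) (c₀ c₁ : ℤ[X]) (M : Matrix (Fin 2) (Fin 2) ℤ[X]) : Prop :=
  c₀ ∈ US (P + Q + 2 * k) (4 * k) ∧ c₁ ∈ US (P + Q + 2 * k) (4 * k) ∧
    M 0 1 ∈ US (P + Q + 2 * k) (2 * k + 1) ∧ M 1 0 ∈ US (P + Q + 2 * k) (2 * k + 1) ∧
    (∃ G U : ℤ[X], Full P Q G ∧ U ∈ US (P + Q + 2 * k) (2 * k) ∧ M 0 0 = c₀ + (G + U)) ∧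
    ∃ U : ℤ[X], U ∈ US (P + Q + 2 * k) (2 * k + 2) ∧ M 1 1 = c₁ + U

/-! ## Part 4: tangles -/

/-- Six consecutive letters. -/
def sixL (y : Fin 6 → Tangle) : List Ltr :=
  [(false, y 0), (true, y 1), (false, y 2), (true, y 3), (false, y 4), (true, y 5)]

/-- Their data. -/
def D6 (d : Bool) (y : Fin 6 → Tangle) : Prop :=
  DB (y 0) d ∧ DB (y 1) d ∧ DB (y 2) (!d) ∧ DA (y 3) d ∧ DA (y 4) d ∧ DA (y 5) (!d)

end Pool.Agent.HMU
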