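import Pool.Agent.HMU.Spec

/-!
# HMU, Ent: the entries of the matrices
-/

set_option autoImplicit false

namespace Pool.Agent.HMU

open Polynomial Matrix Pool.Agent.HMA Pool.Agent.HMT Pool.Agent.HMS

namespace EntAux

theorem swap (a b : ℕ) (F : ℤ[X]) (hF : Full a b F) : Full b a F := by
  obtain ⟨G, hG, rfl⟩ := hF
  exact ⟨G, by rw [Nat.add_comm b a]; exact hG, by rw [mul_comm (SS a) (SS b)]⟩

/-- A full polynomial is in `US`. -/
theorem fu (hU : S_USB) (hM : HMA.S_FullM) (p q N : ℕ) (F : ℤ[X]) (hF : Full p q F)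
    (h : p + q + 1 = N) : F ∈ US N 1 := by
  have h1 := (hU.1 (p + q) 1 F).1 (hM.2.1 p q F hF)
  rw [h] at h1
  exact h1

/-- The first component of the data. -/
theorem f1 (hU : S_USB) (hM : HMA.S_FullM) (h2 : HMA.S_Cone2) (p q : ℕ) (x : V)
    (hx : FullK p q x) : x.1 ∈ US (p + q + 1) 1 :=
  fu hU hM p q _ _ (h2.2.1 p q x hx) rfl

/-- The first component of a product. -/
theorem f2 (hU : S_USB) (hM : HMA.S_FullM) (h2 : HMA.S_Cone2) (p q p' q' : ℕ) (x y : V)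
    (hx : FullK p q x) (hy : FullK p' q' y) :
    (pm x y).1 ∈ US (p + q + 1 + (p' + q' + 1)) 1 :=
  fu hU hM (p + p' + 1) (q + q') _ _ (h2.2.1 _ _ _ (h2.2.2.1 p q p' q' x y hx hy)) (by omega)

theorem cst (N N' c : ℕ) (F : ℤ[X]) (hF : F ∈ US N c) (h : N = N') : F ∈ US N' c := by
  rw [← h]
  exact hF

theorem kk (hM : HMA.S_FullM) (p q : ℕ) (x : V) (hx : FullK p q x) : x ∈ KK (p + q + 1) := by
  obtain ⟨p', k, P, R, hp, hP, hR, rfl⟩ := hx
  refine add_mem (AddSubmonoid.subset_closure ⟨p' + q, k + 1, P, by omega, hM.2.1 p' q P hP, rfl⟩) hR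

end EntAux

open EntAux in
/-- The entries of the matrices. -/
theorem tEnt : S_USB → S_Cheb → S_FullM → S_Cone1 → S_Cone2 → S_Ent := by
  intro hU _ hM _ h2
  refine ⟨swap, fun p q p' q' p'' q'' x y z hx hy hz => ?_, kk hM⟩
  have hxy : FullK (p + p' + 1) (q + q') (pm x y) := h2.2.2.1 p q p' q' x y hx hy
  have hxyz := h2.2.2.1 _ _ p'' q'' _ z hxy hz
  have hF := h2.2.1 _ _ _ hxyz
  have e1 : p + p' + 1 + p'' + 1 = p + p' + p'' + 2 := by omega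
  rw [e1] at hF
  refine ⟨hF, ?_, ?_, ?_, ?_⟩
  · exact fu hU hM _ _ _ _ hF (by omega)
  · exact cst _ _ _ _ (hU.2.1 _ _ 1 1 _ _ (f2 hU hM h2 p' q' p q y x hy hx)
      (f1 hU hM h2 p'' q'' z hz)) (by omega)
  · exact cst _ _ _ _ (hU.2.1 _ _ 1 1 _ _ (f2 hU hM h2 p' q' p'' q'' y z hy hz)
      (f1 hU hM h2 p q x hx)) (by omega)
  · exact hU.2.1 _ _ 2 1 _ _ (hU.2.1 _ _ 1 1 _ _ (f1 hU hM h2 p q x hx)
      (f1 hU hM h2 p' q' y hy)) (f1 hU hM h2 p'' q'' z hz)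

end Pool.Agent.HMU
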