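import Pool.Agent.HMU.Spec

/-!
# HMU, Ered: reduction of the cones to rows of crossings
-/

set_option autoImplicit false

namespace Pool.Agent.HMU

open Polynomial Matrix Pool.Agent.HMA Pool.Agent.HMT Pool.Agent.HMS

namespace EredAux

theorem ev_mul (ξ : ℝ) (f g : ℤ[X]) : ev ξ (f * g) = ev ξ f * ev ξ g := by
  unfold ev; exact map_mul _ _ _

theorem ev_add (ξ : ℝ) (f g : ℤ[X]) : ev ξ (f + g) = ev ξ f + ev ξ g := by
  unfold ev; exact map_add _ _ _

theorem ev_zero (ξ : ℝ) : ev ξ (0 : ℤ[X]) = 0 := by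
  unfold ev; exact map_zero _

/-- The value of `EE` as a function of the data of one unit. -/
noncomputable def gg (ξ : ℝ) (c : Bool) (l₁ l₂ : List Un) (v1 v2 b1 b2 x1 x2 : ℝ) : ℝ :=
  ev ξ (eA l₁) * ev ξ (eA l₂) * ((ev ξ X * (v1 * b1) + v1 * b2 + b1 * v2) * x1) +
    ev ξ (eB l₁) * ev ξ (eB l₂) * ((ev ξ X * (v1 * x1) + v1 * x2 + x1 * v2) * b1) -
    ev ξ (eD l₁) * ev ξ (eD l₂) * (b1 * x1) *
      (eP true ξ l₁ * eP true ξ l₂ * (kap (true == c) ξ * v1 + v2) +
        eP false ξ l₁ * eP false ξ l₂ * (kap (false == c) ξ * v1 + v2))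

theorem form (ξ : ℝ) (l₁ l₂ : List Un) (c : Bool) (v b x : V) :
    EE ξ (l₁ ++ ⟨c, v, b, x⟩ :: l₂) =
      gg ξ c l₁ l₂ (ev ξ v.1) (ev ξ v.2) (ev ξ b.1) (ev ξ b.2) (ev ξ x.1) (ev ξ x.2) := by
  have hA : eA (l₁ ++ ⟨c, v, b, x⟩ :: l₂) = eA l₁ * ((pm v b).1 * x.1 * eA l₂) := by
    simp only [eA, List.map_append, List.map_cons, List.prod_append, List.prod_cons]
  have hB : eB (l₁ ++ ⟨c, v, b, x⟩ :: l₂) = eB l₁ * ((pm v x).1 * b.1 * eB l₂) := by
    simp only [eB, List.map_append, List.map_cons, List.prod_append, List.prod_cons]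
  have hD : eD (l₁ ++ ⟨c, v, b, x⟩ :: l₂) = eD l₁ * (b.1 * x.1 * eD l₂) := by
    simp only [eD, List.map_append, List.map_cons, List.prod_append, List.prod_cons]
  have hP : ∀ d : Bool, eP d ξ (l₁ ++ ⟨c, v, b, x⟩ :: l₂) =
      eP d ξ l₁ * (phi (d == c) ξ v * eP d ξ l₂) := by
    intro d
    simp only [eP, List.map_append, List.map_cons, List.prod_append, List.prod_cons]
  unfold EE
  rw [hA, hB, hD, hP true, hP false]
  unfold gg phi pm
  simp only [ev_mul, ev_add]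
  ring

/-- The statement for one unit. -/
def RR (q : List (Bool × ℕ × ℕ × ℕ)) (l : List Un) (c : Bool) (T : ℕ) (v b x : V) : Prop :=
  ∃ F ∈ US T (2 * (q.length + 1 + l.length)), ∀ ξ : ℝ, 0 < ξ →
    EE ξ (q.map sU ++ ⟨c, v, b, x⟩ :: l) = ev ξ F

variable {q : List (Bool × ℕ × ℕ × ℕ)} {l : List Un} {c : Bool} {T : ℕ}

theorem addv {v v' b x : V} (h : RR q l c T v b x) (h' : RR q l c T v' b x) :
    RR q l c T (v + v') b x := by
  obtain ⟨F, hF, h1⟩ := h
  obtain ⟨F', hF', h1'⟩ := h'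
  refine ⟨F + F', add_mem hF hF', fun ξ hξ => ?_⟩
  have e := h1 ξ hξ
  have e' := h1' ξ hξ
  rw [form] at e e' ⊢
  rw [ev_add, ← e, ← e', Prod.fst_add, Prod.snd_add, ev_add, ev_add]
  unfold gg
  ring

theorem addb {v b b' x : V} (h : RR q l c T v b x) (h' : RR q l c T v b' x) :
    RR q l c T v (b + b') x := by
  obtain ⟨F, hF, h1⟩ := h
  obtain ⟨F', hF', h1'⟩ := h'
  refine ⟨F + F', add_mem hF hF', fun ξ hξ => ?_⟩
  have e := h1 ξ hξ
  have e' := h1' ξ hξ
  rw [form] at e e' ⊢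
  rw [ev_add, ← e, ← e', Prod.fst_add, Prod.snd_add, ev_add, ev_add]
  unfold gg
  ring

theorem addx {v b x x' : V} (h : RR q l c T v b x) (h' : RR q l c T v b x') :
    RR q l c T v b (x + x') := by
  obtain ⟨F, hF, h1⟩ := h
  obtain ⟨F', hF', h1'⟩ := h'
  refine ⟨F + F', add_mem hF hF', fun ξ hξ => ?_⟩
  have e := h1 ξ hξ
  have e' := h1' ξ hξ
  rw [form] at e e' ⊢
  rw [ev_add, ← e, ← e', Prod.fst_add, Prod.snd_add, ev_add, ev_add]
  unfold gg
  ring

theorem zerov {b x : V} : RR q l c T 0 b x := by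
  refine ⟨0, zero_mem _, fun ξ hξ => ?_⟩
  rw [form, Prod.fst_zero, Prod.snd_zero, ev_zero]
  unfold gg
  ring

theorem zerob {v x : V} : RR q l c T v 0 x := by
  refine ⟨0, zero_mem _, fun ξ hξ => ?_⟩
  rw [form, Prod.fst_zero, Prod.snd_zero, ev_zero]
  unfold gg
  ring

theorem zerox {v b : V} : RR q l c T v b 0 := by
  refine ⟨0, zero_mem _, fun ξ hξ => ?_⟩
  rw [form, Prod.fst_zero, Prod.snd_zero, ev_zero]
  unfold gg
  ring

theorem mulF (hU : S_USB) {e T C : ℕ} {P F : ℤ[X]} (hP : P ∈ Uni e) (hF : F ∈ US T C) :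
    P * F ∈ US (e + T) C := by
  have h1 : P ∈ US e 0 := by
    have := (hU.1 e 0 P).1 hP
    rwa [Nat.add_zero] at this
  have h2 := hU.2.1 e T 0 C P F h1 hF
  rwa [Nat.zero_add] at h2

theorem scv (hU : S_USB) {e : ℕ} {P : ℤ[X]} (hP : P ∈ Uni e) {v b x : V} (h : RR q l c T v b x) :
    RR q l c (e + T) (P * v.1, P * v.2) b x := by
  obtain ⟨F, hF, h1⟩ := h
  refine ⟨P * F, mulF hU hP hF, fun ξ hξ => ?_⟩
  have e1 := h1 ξ hξ
  rw [form] at e1 ⊢
  rw [ev_mul ξ P F, ← e1]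
  simp only [ev_mul]
  unfold gg
  ring

theorem scb (hU : S_USB) {e : ℕ} {P : ℤ[X]} (hP : P ∈ Uni e) {v b x : V} (h : RR q l c T v b x) :
    RR q l c (e + T) v (P * b.1, P * b.2) x := by
  obtain ⟨F, hF, h1⟩ := h
  refine ⟨P * F, mulF hU hP hF, fun ξ hξ => ?_⟩
  have e1 := h1 ξ hξ
  rw [form] at e1 ⊢
  rw [ev_mul ξ P F, ← e1]
  simp only [ev_mul]
  unfold gg
  ring

theorem scx (hU : S_USB) {e : ℕ} {P : ℤ[X]} (hP : P ∈ Uni e) {v b x : V} (h : RR q l c T v b x) :
    RR q l c (e + T) v b (P * x.1, P * x.2) := by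
  obtain ⟨F, hF, h1⟩ := h
  refine ⟨P * F, mulF hU hP hF, fun ξ hξ => ?_⟩
  have e1 := h1 ξ hξ
  rw [form] at e1 ⊢
  rw [ev_mul ξ P F, ← e1]
  simp only [ev_mul]
  unfold gg
  ring

/-- Closure induction in the third coordinate. -/
theorem stx (hU : S_USB) {v b : V} {E T₀ : ℕ}
    (h0 : ∀ k : ℕ, RR q l c (T₀ + k) v b (sg k)) {x : V} (hx : x ∈ KK E) :
    RR q l c (T₀ + E) v b x := by
  unfold KK at hx
  induction hx using AddSubmonoid.closure_induction with
  | mem y hy =>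
    obtain ⟨e, k, P, he, hP, rfl⟩ := hy
    have h1 := scx hU hP (h0 k)
    have h2 : e + (T₀ + k) = T₀ + E := by omega
    rwa [h2] at h1
  | zero => exact zerox
  | add y z _ _ hy hz => exact addx hy hz

theorem stb (hU : S_USB) {v x : V} {E T₀ : ℕ}
    (h0 : ∀ k : ℕ, RR q l c (T₀ + k) v (sg k) x) {b : V} (hb : b ∈ KK E) :
    RR q l c (T₀ + E) v b x := by
  unfold KK at hb
  induction hb using AddSubmonoid.closure_induction with
  | mem y hy =>
    obtain ⟨e, k, P, he, hP, rfl⟩ := hy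
    have h1 := scb hU hP (h0 k)
    have h2 : e + (T₀ + k) = T₀ + E := by omega
    rwa [h2] at h1
  | zero => exact zerob
  | add y z _ _ hy hz => exact addb hy hz

theorem stv (hU : S_USB) {b x : V} {E T₀ : ℕ}
    (h0 : ∀ k : ℕ, RR q l c (T₀ + k) (sg k) b x) {v : V} (hv : v ∈ KK E) :
    RR q l c (T₀ + E) v b x := by
  unfold KK at hv
  induction hv using AddSubmonoid.closure_induction with
  | mem y hy =>
    obtain ⟨e, k, P, he, hP, rfl⟩ := hy
    have h1 := scv hU hP (h0 k)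
    have h2 : e + (T₀ + k) = T₀ + E := by omega
    rwa [h2] at h1
  | zero => exact zerov
  | add y z _ _ hy hz => exact addv hy hz

theorem main (hU : S_USB) (hE : S_Esig) : ∀ (l : List Un) (N : ℕ), UK l N →
    ∀ q : List (Bool × ℕ × ℕ × ℕ), ∃ F ∈ US (tot q + N) (2 * (q.length + l.length)),
      ∀ ξ : ℝ, 0 < ξ → EE ξ (q.map sU ++ l) = ev ξ F := by
  intro l
  induction l with
  | nil =>
    intro N hN q
    have hN0 : N = 0 := hN
    subst hN0
    obtain ⟨F, hF, h⟩ := hE q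
    refine ⟨F, ?_, fun ξ hξ => ?_⟩
    · simpa using hF
    · rw [List.append_nil]
      exact h ξ hξ
  | cons u l ih =>
    intro N hN q
    obtain ⟨E₁, E₂, E₃, M, hv, hb, hx, hM, hNN⟩ := hN
    obtain ⟨c, v, b, x⟩ := u
    have key : ∀ i j k : ℕ, RR q l c (tot q + M + i + j + k) (sg i) (sg j) (sg k) := by
      intro i j k
      obtain ⟨F, hF, h⟩ := ih M hM (q ++ [(c, i, j, k)])
      have e1 : tot (q ++ [(c, i, j, k)]) + M = tot q + M + i + j + k := by
        simp only [tot, List.map_append, List.sum_append, List.map_cons, List.map_nil,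
          List.sum_cons, List.sum_nil]
        omega
      have e2 : (q ++ [(c, i, j, k)]).length = q.length + 1 := by simp
      rw [e1, e2] at hF
      refine ⟨F, hF, fun ξ hξ => ?_⟩
      have h1 := h ξ hξ
      rw [List.map_append, List.append_assoc] at h1
      exact h1
    have s3 : ∀ i j : ℕ, RR q l c (tot q + M + i + j + E₃) (sg i) (sg j) x := fun i j =>
      stx hU (key i j) hx
    have s2 : ∀ i : ℕ, RR q l c (tot q + M + i + E₃ + E₂) (sg i) b x := fun i =>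
      stb hU (fun j => by
        have h1 := s3 i j
        have h2 : tot q + M + i + j + E₃ = tot q + M + i + E₃ + j := by omega
        rwa [h2] at h1) hb
    have s1 : RR q l c (tot q + M + E₃ + E₂ + E₁) v b x :=
      stv hU (fun i => by
        have h1 := s2 i
        have h2 : tot q + M + i + E₃ + E₂ = tot q + M + E₃ + E₂ + i := by omega
        rwa [h2] at h1) hv
    obtain ⟨F, hF, h⟩ := s1
    refine ⟨F, ?_, h⟩
    have h2 : tot q + M + E₃ + E₂ + E₁ = tot q + N := by omega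
    have h3 : q.length + 1 + l.length = q.length + ((⟨c, v, b, x⟩ : Un) :: l).length := by
      rw [List.length_cons]
      omega
    rw [h2, h3] at hF
    exact hF

end EredAux

theorem tEred : S_USB → S_Esig → S_Ered := by
  intro hU hE l N hl
  obtain ⟨F, hF, h⟩ := EredAux.main hU hE l N hl []
  refine ⟨F, ?_, fun ξ hξ => ?_⟩
  · simpa [tot] using hF
  · have := h ξ hξ
    simpa using this

end Pool.Agent.HMU
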