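import Pool.Agent.HMU.Spec

set_option autoImplicit false

/-! # HMU, Esig: the minus term for rows of crossings -/

namespace Pool.Agent.HMU

open Polynomial Matrix Pool.Agent.HMA Pool.Agent.HMT Pool.Agent.HMS

namespace EsigAux

theorem ev_mul (ξ : ℝ) (f g : ℤ[X]) : ev ξ (f * g) = ev ξ f * ev ξ g := by
  unfold ev
  rw [map_mul]

theorem ev_add (ξ : ℝ) (f g : ℤ[X]) : ev ξ (f + g) = ev ξ f + ev ξ g := by
  unfold ev
  rw [map_add]

theorem ev_zero (ξ : ℝ) : ev ξ 0 = 0 := by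
  unfold ev
  rw [map_zero]

theorem ev_one (ξ : ℝ) : ev ξ 1 = 1 := by
  unfold ev
  rw [map_one]

/-- the signed number of crossings of the middle tangle -/
def sv (q : Bool × ℕ × ℕ × ℕ) : ℤ := if q.1 then (q.2.1 : ℤ) else -(q.2.1 : ℤ)

theorem sv_abs (q : Bool × ℕ × ℕ × ℕ) : (sv q).natAbs = q.2.1 := by
  unfold sv
  rcases q with ⟨c, v, b, x⟩
  cases c <;> simp

theorem split (q : List (Bool × ℕ × ℕ × ℕ)) : ∃ j i : ℕ,
    (q.map sv).sum = (j : ℤ) - i ∧ (q.map fun z => z.2.1).sum = j + i ∧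
    ∀ ξ : ℝ, (q.map fun z => kap z.1 ξ ^ z.2.1).prod = ξ ^ j * ξ⁻¹ ^ i ∧
      (q.map fun z => kap (!z.1) ξ ^ z.2.1).prod = ξ⁻¹ ^ j * ξ ^ i := by
  induction q with
  | nil => exact ⟨0, 0, by simp, by simp, fun ξ => by simp⟩
  | cons a q ih =>
    obtain ⟨j, i, h1, h2, h3⟩ := ih
    rcases a with ⟨c, v, b, x⟩
    cases c
    · refine ⟨j, i + v, ?_, ?_, fun ξ => ?_⟩
      · rw [List.map_cons, List.sum_cons, h1]
        simp only [sv]
        push_cast
        ring
      · rw [List.map_cons, List.sum_cons, h2]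
        ring
      · rw [List.map_cons, List.prod_cons, List.map_cons, List.prod_cons, (h3 ξ).1, (h3 ξ).2]
        constructor
        · simp only [kap, pow_add]
          simp
          ring
        · simp only [kap, pow_add]
          simp
          ring
    · refine ⟨j + v, i, ?_, ?_, fun ξ => ?_⟩
      · rw [List.map_cons, List.sum_cons, h1]
        simp only [sv]
        push_cast
        ring
      · rw [List.map_cons, List.sum_cons, h2]
        ring
      · rw [List.map_cons, List.prod_cons, List.map_cons, List.prod_cons, (h3 ξ).1, (h3 ξ).2]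
        constructor
        · simp only [kap, pow_add]
          simp
          ring
        · simp only [kap, pow_add]
          simp
          ring

theorem pw (ξ : ℝ) (hξ : 0 < ξ) (j i : ℕ) :
    ξ ^ j * ξ⁻¹ ^ i + ξ⁻¹ ^ j * ξ ^ i =
      ξ ^ ((j : ℤ) - i).natAbs + ξ⁻¹ ^ ((j : ℤ) - i).natAbs := by
  have h0 : ξ ≠ 0 := hξ.ne'
  have hk : ∀ n : ℕ, ξ ^ n * ξ⁻¹ ^ n = 1 := by
    intro n
    rw [← mul_pow, mul_inv_cancel₀ h0, one_pow]
  rcases le_total i j with h | h
  · obtain ⟨w, rfl⟩ := Nat.exists_eq_add_of_le h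
    have : (((i + w : ℕ) : ℤ) - i).natAbs = w := by omega
    rw [this, pow_add, pow_add]
    linear_combination (ξ ^ w + ξ⁻¹ ^ w) * hk i
  · obtain ⟨w, rfl⟩ := Nat.exists_eq_add_of_le h
    have : (((j : ℕ) : ℤ) - ((j + w : ℕ) : ℤ)).natAbs = w := by omega
    rw [this, pow_add, pow_add]
    linear_combination (ξ ^ w + ξ⁻¹ ^ w) * hk j

theorem eA_eq (hS : S_Sadd) (q : List (Bool × ℕ × ℕ × ℕ)) : eA (q.map sU) =
    (q.map fun z => Sn (z.2.1 + z.2.2.1)).prod * (q.map fun z => Sn z.2.2.2).prod := by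
  unfold eA
  rw [List.map_map, ← List.prod_map_mul]
  congr 1
  refine List.map_congr_left fun z _ => ?_
  simp only [Function.comp_apply, sU]
  rw [hS.2.2.2.2.2.2 z.2.1 z.2.2.1]
  rfl

theorem eB_eq (hS : S_Sadd) (q : List (Bool × ℕ × ℕ × ℕ)) : eB (q.map sU) =
    (q.map fun z => Sn (z.2.1 + z.2.2.2)).prod * (q.map fun z => Sn z.2.2.1).prod := by
  unfold eB
  rw [List.map_map, ← List.prod_map_mul]
  congr 1
  refine List.map_congr_left fun z _ => ?_
  simp only [Function.comp_apply, sU]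
  rw [hS.2.2.2.2.2.2 z.2.1 z.2.2.2]
  rfl

theorem eD_eq (q : List (Bool × ℕ × ℕ × ℕ)) : eD (q.map sU) =
    (q.map fun z => Sn z.2.2.1).prod * (q.map fun z => Sn z.2.2.2).prod := by
  unfold eD
  rw [List.map_map, ← List.prod_map_mul]
  rfl

theorem eP_true (hS : S_Sadd) (q : List (Bool × ℕ × ℕ × ℕ)) (ξ : ℝ) (hξ : 0 < ξ) :
    eP true ξ (q.map sU) = (q.map fun z => kap z.1 ξ ^ z.2.1).prod := by
  unfold eP
  rw [List.map_map]
  congr 1
  refine List.map_congr_left fun z _ => ?_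
  simp only [Function.comp_apply, sU]
  rw [hS.2.2.2.1 (true == z.1) z.2.1 ξ hξ]
  simp

theorem eP_false (hS : S_Sadd) (q : List (Bool × ℕ × ℕ × ℕ)) (ξ : ℝ) (hξ : 0 < ξ) :
    eP false ξ (q.map sU) = (q.map fun z => kap (!z.1) ξ ^ z.2.1).prod := by
  unfold eP
  rw [List.map_map]
  congr 1
  refine List.map_congr_left fun z _ => ?_
  simp only [Function.comp_apply, sU]
  rw [hS.2.2.2.1 (false == z.1) z.2.1 ξ hξ]
  simp

/-- The exchange lemma in the form needed here. -/
theorem lm (hU : S_USB) (hL : S_LM) (q : List (Bool × ℕ × ℕ × ℕ)) (hq : q ≠ [])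
    (g : Bool × ℕ × ℕ × ℕ → ℕ) : ∃ (b r : ℕ) (ρ U : ℤ[X]),
      b + r = (q.map g).sum ∧ ρ ∈ US r (q.length - 1) ∧
      (q.map fun z => Sn (g z)).prod = Sn b * ρ ∧
      (q.map fun z => Sn (g z)).prod ∈ US (q.map g).sum q.length ∧
      (q.map fun z => Sn (z.2.1 + g z)).prod = Sn ((q.map sv).sum.natAbs + b) * ρ + U ∧
      U ∈ US ((q.map fun z => z.2.1).sum + (q.map g).sum) q.length := by
  obtain ⟨b, r, ρ, h1, h2, h3, h4⟩ := hL (q.map fun z => (sv z, g z)) (by simpa using hq)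
  rw [List.map_map] at h1
  rw [List.length_map] at h2
  rw [List.map_map] at h3
  rw [List.map_map, List.map_map, List.map_map, List.length_map] at h4
  have e1 : ((fun z : ℤ × ℕ => Sn (z.1.natAbs + z.2)) ∘ fun z : Bool × ℕ × ℕ × ℕ => (sv z, g z)) =
      fun z => Sn (z.2.1 + g z) := by
    funext z
    simp only [Function.comp_apply, sv_abs]
  have e2 : ((Prod.fst : ℤ × ℕ → ℤ) ∘ fun z : Bool × ℕ × ℕ × ℕ => (sv z, g z)) = sv := rfl
  have e3 : ((fun z : ℤ × ℕ => z.1.natAbs + z.2) ∘ fun z : Bool × ℕ × ℕ × ℕ => (sv z, g z)) =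
      fun z => z.2.1 + g z := by
    funext z
    simp only [Function.comp_apply, sv_abs]
  rw [e1, e2, e3, List.sum_map_add] at h4
  have h1' : b + r = (q.map g).sum := h1
  have h3' : (q.map fun z => Sn (g z)).prod = Sn b * ρ := h3
  have hlen : 0 < q.length := List.length_pos_iff.mpr hq
  refine ⟨b, r, ρ, _, h1', h2, h3', ?_, (add_sub_cancel _ _).symm, h4⟩
  rw [h3', ← h1']
  have := hU.2.1 b r 1 (q.length - 1) _ _ (hU.2.2.2.2 b) h2
  rwa [show 1 + (q.length - 1) = q.length by omega] at this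

end EsigAux

theorem tEsig : S_USB → S_Sadd → S_LM → S_Esig := by
  intro hU hS hL q
  rcases eq_or_ne q [] with rfl | hq
  · refine ⟨0, zero_mem _, fun ξ _ => ?_⟩
    simp only [List.map_nil, EE, eA, eB, eD, eP, List.prod_nil, EsigAux.ev_one, EsigAux.ev_zero]
    norm_num
  · obtain ⟨b, r, ρ, U, b1, b2, b3, b4, b5, b6⟩ := EsigAux.lm hU hL q hq (fun z => z.2.2.1)
    obtain ⟨x, r', ρ', U', x1, x2, x3, x4, x5, x6⟩ := EsigAux.lm hU hL q hq (fun z => z.2.2.2)
    obtain ⟨j, i, s1, s2, s3⟩ := EsigAux.split q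
    have hlen : 0 < q.length := List.length_pos_iff.mpr hq
    obtain ⟨W, hW⟩ : ∃ W : ℕ, W = (q.map EsigAux.sv).sum.natAbs := ⟨_, rfl⟩
    have htot : tot q = (q.map fun z => z.2.1).sum + (q.map fun z => z.2.2.1).sum +
        (q.map fun z => z.2.2.2).sum := by
      unfold tot
      rw [← List.sum_map_add, ← List.sum_map_add]
    rw [← hW] at b5 x5
    refine ⟨ρ * ρ' * (Sn W * Sn (b + x)) + U * (q.map fun z => Sn z.2.2.2).prod +
      U' * (q.map fun z => Sn z.2.2.1).prod, ?_, fun ξ hξ => ?_⟩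
    · refine add_mem (add_mem ?_ ?_) ?_
      · have t1 := hU.2.1 _ _ _ _ _ _ b2 x2
        have t2 := hU.2.1 _ _ _ _ _ _ (hU.2.2.2.2 W) (hU.2.2.2.2 (b + x))
        have t3 := hU.2.1 _ _ _ _ _ _ t1 t2
        have t4 := hU.2.2.2.1 _ _ (min i j) _ t3
        have ec : q.length - 1 + (q.length - 1) + (1 + 1) = 2 * q.length := by omega
        have eN : r + r' + (W + (b + x)) + 2 * min i j = tot q := by
          rw [htot, s2, ← b1, ← x1, hW, s1]
          omega
        rw [ec, eN] at t4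
        exact t4
      · have t := hU.2.1 _ _ _ _ _ _ b6 x4
        have ec : q.length + q.length = 2 * q.length := by omega
        rw [ec, ← htot] at t
        exact t
      · have t := hU.2.1 _ _ _ _ _ _ x6 b4
        have ec : q.length + q.length = 2 * q.length := by omega
        have eN : (q.map fun z => z.2.1).sum + (q.map fun z => z.2.2.2).sum +
            (q.map fun z => z.2.2.1).sum = tot q := by rw [htot]; ring
        rw [ec, eN] at t
        exact t
    · unfold EE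
      rw [EsigAux.eA_eq hS, EsigAux.eB_eq hS, EsigAux.eD_eq, EsigAux.eP_true hS q ξ hξ,
        EsigAux.eP_false hS q ξ hξ, (s3 ξ).1, (s3 ξ).2, EsigAux.pw ξ hξ j i, ← s1, ← hW, b5, x5]
      have k := hS.2.2.2.2.2.1 W b x ξ hξ
      have kt : kap true ξ = ξ := rfl
      have kf : kap false ξ = ξ⁻¹ := rfl
      rw [kt, kf] at k
      rw [b3, x3]
      simp only [EsigAux.ev_mul, EsigAux.ev_add]
      linear_combination (ev ξ ρ * ev ξ ρ') * k

end Pool.Agent.HMU
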