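import Pool.Agent.HMU.Spec

/-!
# HMU, LM: the exchange lemma
-/

set_option autoImplicit false

namespace Pool.Agent.HMU

open Polynomial Matrix Pool.Agent.HMA Pool.Agent.HMT Pool.Agent.HMS

namespace LMAux

theorem tri (a b : ℤ) : ∃ j : ℕ, a.natAbs + b.natAbs = (a + b).natAbs + 2 * j :=
  ⟨(a.natAbs + b.natAbs - (a + b).natAbs) / 2, by omega⟩

theorem par (l : List (ℤ × ℕ)) : ∃ i : ℕ, (l.map fun z => z.1.natAbs + z.2).sum =
    (l.map Prod.fst).sum.natAbs + (l.map Prod.snd).sum + 2 * i := by
  induction l with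
  | nil => exact ⟨0, by simp⟩
  | cons z l ih =>
    obtain ⟨i, hi⟩ := ih
    obtain ⟨j, hj⟩ := tri z.1 (l.map Prod.fst).sum
    refine ⟨i + j, ?_⟩
    simp only [List.map_cons, List.sum_cons]
    omega

theorem step (hU : S_USB) (z : ℤ × ℕ) (l : List (ℤ × ℕ)) (hl : l ≠ []) (b' r' : ℕ)
    (ρ' P P' Y : ℤ[X])
    (h1 : b' + r' = (l.map Prod.snd).sum) (h2 : ρ' ∈ US r' (l.length - 1))
    (h4 : P' - Sn ((l.map Prod.fst).sum.natAbs + b') * ρ' ∈
      US (l.map fun z => z.1.natAbs + z.2).sum l.length)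
    (hT : Sn (z.1.natAbs + z.2) * Sn ((l.map Prod.fst).sum.natAbs + b') - Y ∈
      US (z.1.natAbs + z.2 + ((l.map Prod.fst).sum.natAbs + b')) 2)
    (hP : P = Sn (z.1.natAbs + z.2) * P') :
    P - Y * ρ' ∈ US (z.1.natAbs + z.2 + (l.map fun z => z.1.natAbs + z.2).sum) (l.length + 1) := by
  obtain ⟨_, hmul, _, hup, hSn⟩ := hU
  have hlen : 0 < l.length := List.length_pos_iff.mpr hl
  obtain ⟨i, hi⟩ := par l
  have e : P - Y * ρ' = Sn (z.1.natAbs + z.2) * (P' - Sn ((l.map Prod.fst).sum.natAbs + b') * ρ') +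
      (Sn (z.1.natAbs + z.2) * Sn ((l.map Prod.fst).sum.natAbs + b') - Y) * ρ' := by
    rw [hP]; ring
  rw [e]
  refine add_mem ?_ ?_
  · have h := hmul _ _ _ _ _ _ (hSn (z.1.natAbs + z.2)) h4
    rwa [add_comm 1 l.length] at h
  · have h := hup _ _ i _ (hmul _ _ _ _ _ _ hT h2)
    have e1 : z.1.natAbs + z.2 + ((l.map Prod.fst).sum.natAbs + b') + r' + 2 * i =
        z.1.natAbs + z.2 + (l.map fun z => z.1.natAbs + z.2).sum := by omega
    have e2 : 2 + (l.length - 1) = l.length + 1 := by omega
    rwa [e1, e2] at h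

end LMAux

theorem tLM : S_USB → S_Two → S_LM := by
  intro hU hT l
  induction l with
  | nil => intro h; exact absurd rfl h
  | cons z l ih =>
    intro _
    by_cases hl : l = []
    · subst hl
      refine ⟨z.2, 0, 1, by simp, ?_, by simp, by simp⟩
      exact AddSubmonoid.subset_closure ⟨0, 0, by simp, by simp [SS]⟩
    · obtain ⟨b', r', ρ', h1, h2, h3, h4⟩ := ih hl
      have hlen : 0 < l.length := List.length_pos_iff.mpr hl
      have hU' := hU
      obtain ⟨_, hmul, _, hup, hSn⟩ := hU'
      rcases hT z.2 b' z.1 (l.map Prod.fst).sum with h | h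
      · refine ⟨z.2, b' + r', Sn b' * ρ', ?_, ?_, ?_, ?_⟩
        · simp only [List.map_cons, List.sum_cons]; omega
        · have h' := hmul _ _ _ _ _ _ (hSn b') h2
          have e2 : 1 + (l.length - 1) = (z :: l).length - 1 := by
            simp only [List.length_cons]; omega
          rwa [e2] at h'
        · simp only [List.map_cons, List.prod_cons]; rw [h3]
        · have h' := LMAux.step hU z l hl b' r' ρ' _ _ _ h1 h2 h4 h rfl
          simp only [List.map_cons, List.prod_cons, List.sum_cons, List.length_cons]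
          rwa [← mul_assoc]
      · refine ⟨b', z.2 + r', Sn z.2 * ρ', ?_, ?_, ?_, ?_⟩
        · simp only [List.map_cons, List.sum_cons]; omega
        · have h' := hmul _ _ _ _ _ _ (hSn z.2) h2
          have e2 : 1 + (l.length - 1) = (z :: l).length - 1 := by
            simp only [List.length_cons]; omega
          rwa [e2] at h'
        · simp only [List.map_cons, List.prod_cons]; rw [h3]; ring
        · have h' := LMAux.step hU z l hl b' r' ρ' _ _ _ h1 h2 h4 h rfl
          simp only [List.map_cons, List.prod_cons, List.sum_cons, List.length_cons]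
          have e : Sn ((z.1 + (l.map Prod.fst).sum).natAbs + b') * (Sn z.2 * ρ') =
            Sn z.2 * Sn ((z.1 + (l.map Prod.fst).sum).natAbs + b') * ρ' := by ring
          rwa [e]

end Pool.Agent.HMU
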