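import Pool.Agent.HMU.Spec

/-!
# HMU, module Leaf: words of parallel tangles are good
-/

set_option autoImplicit false

namespace Pool.Agent.HMU

open Polynomial Matrix Pool.Agent.HMA Pool.Agent.HMT Pool.Agent.HMS

namespace LeafAux

/-- The data of pattern b as a triple. -/
theorem db (hT4 : ∀ (c : Bool) (k m a b : ℝ), rg c (k * m) (k * a) (k * b) = k • rg c m a b)
    {T : Tangle} {d : Bool} (h : DB T d) :
    ∃ (x : V) (p q : ℕ) (K : ℤ), FullK p q x ∧ (p : ℤ) - q = faces T - positive T ∧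
      ∀ (c : Bool) (ξ : ℝ), 0 < ξ → lt3 ξ (c, T) = ξ ^ K • pb c d ξ (ev ξ x.1) (ev ξ x.2) := by
  obtain ⟨x, p, q, K, f, s, e⟩ := h
  refine ⟨x, p, q, K, f, s, ?_⟩
  intro c ξ hξ
  obtain ⟨u1, u2, u3⟩ := e ξ hξ
  unfold lt3 pb
  rw [u1, u2, u3, hT4]

/-- The data of pattern a as a triple. -/
theorem da (hT4 : ∀ (c : Bool) (k m a b : ℝ), rg c (k * m) (k * a) (k * b) = k • rg c m a b)
    {T : Tangle} {d : Bool} (h : DA T d) :
    ∃ (x : V) (p q : ℕ) (K : ℤ), FullK q p x ∧ (p : ℤ) - q = faces T - positive T + 1 ∧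
      ∀ (c : Bool) (ξ : ℝ), 0 < ξ → lt3 ξ (c, T) = ξ ^ K • pa c d ξ (ev ξ x.1) (ev ξ x.2) := by
  obtain ⟨x, p, q, K, f, s, e⟩ := h
  refine ⟨x, p, q, K, f, s, ?_⟩
  intro c ξ hξ
  obtain ⟨u1, u2, u3⟩ := e ξ hξ
  unfold lt3 pa
  rw [u1, u2, u3, hT4]

/-- One period. -/
theorem period (hT : S_TriP) (d : Bool) (y : Fin 6 → Tangle) (hy : D6 d y) :
    ∃ (x : Pd) (p q : Fin 6 → ℕ) (K : ℤ), PK1 x p q ∧
      ((∑ i, p i : ℕ) : ℤ) - ((∑ i, q i : ℕ) : ℤ) = sigL (sixL y) ∧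
      ∀ ξ : ℝ, 0 < ξ → tr3 ξ (sixL y) =
        ξ ^ K • (tL d ξ (x 3) (x 4) (x 5) * tR d ξ (x 0) (x 1) (x 2)) := by
  obtain ⟨_, _, _, hT4, hT5⟩ := hT
  obtain ⟨h0, h1, h2, h3, h4, h5⟩ := hy
  obtain ⟨x0, p0, q0, K0, f0, s0, e0⟩ := db hT4 h0
  obtain ⟨x1, p1, q1, K1, f1, s1, e1⟩ := db hT4 h1
  obtain ⟨x2, p2, q2, K2, f2, s2, e2⟩ := db hT4 h2
  obtain ⟨x3, p3, q3, K3, f3, s3, e3⟩ := da hT4 h3
  obtain ⟨x4, p4, q4, K4, f4, s4, e4⟩ := da hT4 h4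
  obtain ⟨x5, p5, q5, K5, f5, s5, e5⟩ := da hT4 h5
  refine ⟨![x0, x1, x2, x3, x4, x5], ![p0, p1, p2, p3, p4, p5], ![q0, q1, q2, q3, q4, q5],
    K5 + K4 + K3 + K2 + K1 + K0, ⟨f0, f1, f2, f3, f4, f5⟩, ?_, ?_⟩
  · simp only [Fin.sum_univ_six]
    simp only [Matrix.cons_val]
    simp only [sixL, sigL, List.map_cons, List.map_nil, List.sum_cons, List.sum_nil, if_true,
      Bool.false_eq_true, if_false]
    push_cast
    omega
  · intro ξ hξ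
    have hsm : ∀ (k : ℝ) (t t' : T3), (k • t) * t' = k • (t * t') := fun k t t' => (hT5 k t t').2.1
    have hms : ∀ (k : ℝ) (t t' : T3), t * (k • t') = k • (t * t') := fun k t t' => (hT5 k t t').2.2
    have l0 := e0 false ξ hξ
    have l1 := e1 true ξ hξ
    have l2 := e2 false ξ hξ
    have l3 := e3 true ξ hξ
    have l4 := e4 false ξ hξ
    have l5 := e5 true ξ hξ
    have htr : tr3 ξ (sixL y) =
        (ξ ^ K5 * (ξ ^ K4 * (ξ ^ K3 * (ξ ^ K2 * (ξ ^ K1 * ξ ^ K0))))) •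
        (tL d ξ x3 x4 x5 * tR d ξ x0 x1 x2) := by
      unfold sixL tL tR
      simp only [tr3, one_mul, l0, l1, l2, l3, l4, l5, mul_assoc, hsm, hms, smul_smul]
    rw [htr]
    have hK : ξ ^ (K5 + K4 + K3 + K2 + K1 + K0) =
        ξ ^ K5 * (ξ ^ K4 * (ξ ^ K3 * (ξ ^ K2 * (ξ ^ K1 * ξ ^ K0)))) := by
      rw [zpow_add₀ hξ.ne', zpow_add₀ hξ.ne', zpow_add₀ hξ.ne', zpow_add₀ hξ.ne', zpow_add₀ hξ.ne']
      ring
    rw [hK]
    rfl

theorem sigL_append (A B : List Ltr) : sigL (A ++ B) = sigL A + sigL B := by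
  simp only [sigL, List.map_append, List.sum_append]

/-- The words. -/
theorem word (hTt : S_Tt) (hT : S_TriP) (d : Bool) (ys : List (Fin 6 → Tangle)) :
    (∀ y ∈ ys, D6 d y) → ∃ (l : List Pd) (P Q : ℕ) (K : ℤ), l.length = ys.length ∧ PK l P Q ∧
      (P : ℤ) - Q = sigL (ys.flatMap sixL) ∧
      ∀ ξ : ℝ, 0 < ξ → tr3 ξ (ys.flatMap sixL) = ξ ^ K • tp d ξ l := by
  have hsm : ∀ (k : ℝ) (t t' : T3), (k • t) * t' = k • (t * t') :=
    fun k t t' => (hT.2.2.2.2 k t t').2.1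
  have hms : ∀ (k : ℝ) (t t' : T3), t * (k • t') = k • (t * t') :=
    fun k t t' => (hT.2.2.2.2 k t t').2.2
  induction ys with
  | nil =>
    intro _
    refine ⟨[], 0, 0, 0, rfl, ⟨rfl, rfl⟩, by simp [sigL], ?_⟩
    intro ξ _
    rw [zpow_zero, one_smul]
    rfl
  | cons y ys ih =>
    intro h
    obtain ⟨x, p, q, K, h1, h2, h3⟩ := period hT d y (h y (List.mem_cons_self))
    obtain ⟨l, P, Q, K', g1, g2, g3, g4⟩ := ih (fun z hz => h z (List.mem_cons_of_mem y hz))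
    refine ⟨x :: l, ∑ i, p i + 2 + P, ∑ i, q i + 2 + Q, K' + K, ?_, ⟨p, q, P, Q, h1, g2, rfl, rfl⟩, ?_, ?_⟩
    · simp only [List.length_cons, g1]
    · rw [List.flatMap_cons, sigL_append, ← h2, ← g3]
      push_cast
      ring
    · intro ξ hξ
      rw [List.flatMap_cons, hTt.1, h3 ξ hξ, g4 ξ hξ, hsm, hms, smul_smul, zpow_add₀ hξ.ne']
      rfl

end LeafAux

theorem tLeaf : S_Tt → S_TriP → S_LeafP → S_Leaf := by
  intro hTt hT hP d ys hne hys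
  obtain ⟨l, P, Q, K, h1, h2, h3, h4⟩ := LeafAux.word hTt hT d ys hys
  have hl : l ≠ [] := by
    intro h
    rw [h, List.length_nil] at h1
    exact hne (List.length_eq_zero_iff.1 h1.symm)
  obtain ⟨F, hF, hG⟩ := hP d l P Q hl h2
  refine ⟨F, P, Q, K, hF, h3, ?_⟩
  intro ξ hξ
  rw [h4 ξ hξ, (hT.2.2.2.2 (ξ ^ K) (tp d ξ l) (tp d ξ l)).1, hG ξ hξ]

end Pool.Agent.HMU
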