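import Pool.Agent.HMU.Spec

/-!
# HMU, LeafP: the polynomial of a word of periods is full (MP_29c64e_gt)
-/

set_option autoImplicit false

namespace Pool.Agent.HMU

open Polynomial Matrix Pool.Agent.HMA Pool.Agent.HMT Pool.Agent.HMS

namespace LeafPAux

lemma units_length (l : List Pd) : (units l).length = 2 * l.length := by
  induction l with
  | nil => simp [units]
  | cons x l ih =>
    simp only [units, List.length_cons, ih]
    ring

lemma uk (hE : S_Ent) : ∀ (l : List Pd) (P Q : ℕ), PK l P Q → UK (units l) (P + Q + 2 * l.length) := by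
  intro l
  induction l with
  | nil =>
    intro P Q h
    obtain ⟨h1, h2⟩ := h
    subst h1
    subst h2
    simp [units, UK]
  | cons x l ih =>
    intro P Q h
    obtain ⟨p, q, P', Q', h1, h2, h3, h4⟩ := h
    obtain ⟨g0, g1, g2, g3, g4, g5⟩ := h1
    have hk := hE.2.2
    refine ⟨p 1 + q 1 + 1, p 0 + q 0 + 1, p 2 + q 2 + 1,
      (q 4 + p 4 + 1) + (q 5 + p 5 + 1) + (q 3 + p 3 + 1) + (P' + Q' + 2 * l.length),
      hk _ _ _ g1, hk _ _ _ g0, hk _ _ _ g2,
      ⟨q 4 + p 4 + 1, q 5 + p 5 + 1, q 3 + p 3 + 1, P' + Q' + 2 * l.length,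
        hk _ _ _ g4, hk _ _ _ g5, hk _ _ _ g3, ih P' Q' h2, rfl⟩, ?_⟩
    rw [h3, h4, Fin.sum_univ_six, Fin.sum_univ_six, List.length_cons]
    ring

end LeafPAux

theorem tLeafP : S_USB → S_Ent → S_FullM → S_MGL → S_TpM → S_Ered → S_LeafP := by
  intro hU hE hF hM hT hR d l P Q hl hP
  obtain ⟨h0, h1, h2, h3, ⟨G, U, hG, hUU, hM0⟩, U', hU', hM1⟩ := hM l P Q hl hP
  obtain ⟨F, hFm, hFe⟩ := hR (units l) _ (LeafPAux.uk hE l P Q hP)
  rw [LeafPAux.units_length] at hFm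
  have e1 : U ∈ US (P + Q + 2 * l.length) (2 * l.length) := hUU
  have e2 : U' ∈ US (P + Q + 2 * l.length) (2 * l.length) := hU.2.2.1 _ _ 1 _ hU'
  have e3 : F ∈ US (P + Q + 2 * l.length) (2 * l.length) := by
    refine hU.2.2.1 _ _ l.length _ ?_
    have e : 2 * l.length + 2 * l.length = 2 * (2 * l.length) := by ring
    rw [e]
    exact hFm
  have e4 : U + U' + F ∈ Uni (P + Q) :=
    (hU.1 (P + Q) (2 * l.length) _).2 (add_mem (add_mem e1 e2) e3)
  refine ⟨G + (U + U' + F), hF.2.2.1 _ _ _ _ hG e4, fun ξ hξ => ?_⟩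
  rw [hT d ξ l hξ, hM0, hM1]
  have h5 := hFe ξ hξ
  unfold EE at h5
  unfold ev at h5 ⊢
  simp only [map_add] at h5 ⊢
  linarith

end Pool.Agent.HMU
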