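import Pool.Agent.HMU.Spec

/-!
# HMU, MG1: the matrix of one period
-/

set_option autoImplicit false

namespace Pool.Agent.HMU

open Polynomial Matrix Pool.Agent.HMA Pool.Agent.HMT Pool.Agent.HMS

namespace MG1Aux

/-- Equal indices. -/
private theorem us_cast {N N' c c' : ℕ} {F : ℤ[X]} (h : F ∈ US N c) (hN : N = N') (hc : c = c') :
    F ∈ US N' c' := by
  subst hN; subst hc; exact h

private theorem full_cast {p q p' q' : ℕ} {F : ℤ[X]} (h : Full p q F) (hp : p = p') (hq : q = q') :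
    Full p' q' F := by
  subst hp; subst hq; exact h

end MG1Aux

open MG1Aux in
theorem tMG1 : S_USB → S_Ent → S_FullM → S_MG1 := by
  intro hU hE hF x p q hx
  obtain ⟨-, hmul, hdown, -, -⟩ := hU
  obtain ⟨hsym, hent, -⟩ := hE
  obtain ⟨-, -, -, hfm⟩ := hF
  obtain ⟨h0, h1, h2, h3, h4, h5⟩ := hx
  obtain ⟨rf, r10, r00, r11, r01⟩ := hent _ _ _ _ _ _ _ _ _ h0 h1 h2
  obtain ⟨lf, l01, l11, l00, l10⟩ := hent _ _ _ _ _ _ _ _ _ h3 h4 h5
  have hsum : ∑ i, p i = p 0 + p 1 + p 2 + p 3 + p 4 + p 5 := by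
    rw [Fin.sum_univ_six]
  have hsumq : ∑ i, q i = q 0 + q 1 + q 2 + q 3 + q 4 + q 5 := by
    rw [Fin.sum_univ_six]
  have eAx : eA (units [x]) = (pm (x 4) (x 5)).1 * (x 3).1 * ((pm (x 1) (x 0)).1 * (x 2).1) := by
    simp only [eA, units, List.map_cons, List.map_nil, List.prod_cons, List.prod_nil]
    ring
  have eBx : eB (units [x]) = (pm (x 4) (x 3)).1 * (x 5).1 * ((pm (x 1) (x 2)).1 * (x 0).1) := by
    simp only [eB, units, List.map_cons, List.map_nil, List.prod_cons, List.prod_nil]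
    ring
  have M00 : LR x 0 0 = (pm (x 4) (x 5)).1 * (x 3).1 * ((pm (x 1) (x 0)).1 * (x 2).1) +
      (pm (pm (x 3) (x 4)) (x 5)).1 * (pm (pm (x 0) (x 1)) (x 2)).1 := by
    simp [LR, Lm, Rm, Matrix.mul_apply, Fin.sum_univ_two]
  have M01 : LR x 0 1 = (pm (x 4) (x 5)).1 * (x 3).1 * ((x 0).1 * (x 1).1 * (x 2).1) +
      (pm (pm (x 3) (x 4)) (x 5)).1 * ((pm (x 1) (x 2)).1 * (x 0).1) := by
    simp [LR, Lm, Rm, Matrix.mul_apply, Fin.sum_univ_two]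
  have M10 : LR x 1 0 = (x 3).1 * (x 4).1 * (x 5).1 * ((pm (x 1) (x 0)).1 * (x 2).1) +
      (pm (x 4) (x 3)).1 * (x 5).1 * (pm (pm (x 0) (x 1)) (x 2)).1 := by
    simp [LR, Lm, Rm, Matrix.mul_apply, Fin.sum_univ_two]
  have M11 : LR x 1 1 = (x 3).1 * (x 4).1 * (x 5).1 * ((x 0).1 * (x 1).1 * (x 2).1) +
      (pm (x 4) (x 3)).1 * (x 5).1 * ((pm (x 1) (x 2)).1 * (x 0).1) := by
    simp [LR, Lm, Rm, Matrix.mul_apply, Fin.sum_univ_two]
  refine ⟨?_, ?_, ?_, ?_, ?_, ?_⟩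
  · rw [eAx]
    exact us_cast (hmul _ _ _ _ _ _ l00 r00) (by omega) (by norm_num)
  · rw [eBx]
    exact us_cast (hmul _ _ _ _ _ _ l11 r11) (by omega) (by norm_num)
  · rw [M01]
    refine add_mem ?_ ?_
    · exact hdown _ _ 1 _ (us_cast (hmul _ _ _ _ _ _ l00 r01) (by omega) (by norm_num))
    · exact us_cast (hmul _ _ _ _ _ _ l01 r11) (by omega) (by norm_num)
  · rw [M10]
    refine add_mem ?_ ?_
    · exact hdown _ _ 1 _ (us_cast (hmul _ _ _ _ _ _ l10 r00) (by omega) (by norm_num))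
    · exact us_cast (hmul _ _ _ _ _ _ l11 r10) (by omega) (by norm_num)
  · refine ⟨(pm (pm (x 3) (x 4)) (x 5)).1 * (pm (pm (x 0) (x 1)) (x 2)).1, 0, ?_, zero_mem _, ?_⟩
    · exact full_cast (hfm _ _ _ _ _ _ (hsym _ _ _ lf) rf) (by omega) (by omega)
    · rw [M00, eAx, add_zero]
  · refine ⟨(x 3).1 * (x 4).1 * (x 5).1 * ((x 0).1 * (x 1).1 * (x 2).1), ?_, ?_⟩
    · exact hdown _ _ 1 _ (us_cast (hmul _ _ _ _ _ _ l10 r01) (by omega) (by norm_num))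
    · rw [M11, eBx, add_comm]

end Pool.Agent.HMU
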