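import Pool.Agent.HMU.Spec

/-!
# HMU, module MG2: products of the matrices of periods
-/

set_option autoImplicit false

namespace Pool.Agent.HMU

open Polynomial Matrix Pool.Agent.HMA Pool.Agent.HMT Pool.Agent.HMS

namespace MG2Aux

/-- Products with a lowered second index. -/
theorem mulLow (hU : S_USB) (A B c d e i : ℕ) (F G : ℤ[X]) (hF : F ∈ US A c) (hG : G ∈ US B d)
    (h : c + d = e + 2 * i) : F * G ∈ US (A + B) e := by
  have h1 := hU.2.1 A B c d F G hF hG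
  rw [h] at h1
  exact hU.2.2.1 (A + B) e i _ h1

theorem low (hU : S_USB) (A c e i : ℕ) (F : ℤ[X]) (hF : F ∈ US A c) (h : c = e + 2 * i) :
    F ∈ US A e := by
  subst h
  exact hU.2.2.1 A e i _ hF

end MG2Aux

open MG2Aux in
theorem tMG2 : S_USB → S_FullM → S_MG2 := by
  intro hU hF k P Q P' Q' c₀ c₁ c₀' c₁' T M hk hT hM
  obtain ⟨i, rfl⟩ : ∃ i, k = i + 1 := ⟨k - 1, by omega⟩
  obtain ⟨a0, a1, a01, a10, ⟨G, U, hG, hUU, a00⟩, V1, hV, a11⟩ := hT
  obtain ⟨b0, b1, b01, b10, ⟨G', U', hG', hUU', b00⟩, V1', hV', b11⟩ := hM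
  set A := P + Q + 2 * (i + 1) with hA
  set B := P' + Q' + 2 * 1 with hB
  have hAB : P + P' + (Q + Q') + 2 * (i + 1 + 1) = A + B := by omega
  -- the full summands in the cones
  have gG : G ∈ US A (2 * (i + 1)) := by
    rw [hA]
    exact (hU.1 (P + Q) (2 * (i + 1)) G).1 (hF.2.1 P Q G hG)
  have gG' : G' ∈ US B (2 * 1) := by
    rw [hB]
    exact (hU.1 (P' + Q') (2 * 1) G').1 (hF.2.1 P' Q' G' hG')
  have c0l : c₀ ∈ US A (2 * (i + 1)) := low hU A _ _ (i + 1) _ a0 (by omega)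
  have c1l : c₁ ∈ US A (2 * (i + 1) + 2) := low hU A _ _ i _ a1 (by omega)
  have c0l' : c₀' ∈ US B (2 * 1) := low hU B _ _ 1 _ b0 (by omega)
  have T00 : T 0 0 ∈ US A (2 * (i + 1)) := by
    rw [a00]
    exact (US A _).add_mem c0l ((US A _).add_mem gG hUU)
  have T11 : T 1 1 ∈ US A (2 * (i + 1) + 2) := by
    rw [a11]
    exact (US A _).add_mem c1l hV
  have M00 : M 0 0 ∈ US B (2 * 1) := by
    rw [b00]
    exact (US B _).add_mem c0l' ((US B _).add_mem gG' hUU')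
  have M11 : M 1 1 ∈ US B (2 * 1 + 2) := by
    rw [b11]
    exact (US B _).add_mem b1 hV'
  unfold MG
  rw [hAB]
  refine ⟨?_, ?_, ?_, ?_, ?_, ?_⟩
  · exact mulLow hU A B _ _ _ 0 _ _ a0 b0 (by omega)
  · exact mulLow hU A B _ _ _ 0 _ _ a1 b1 (by omega)
  · rw [Matrix.mul_apply, Fin.sum_univ_two]
    exact (US (A + B) _).add_mem (mulLow hU A B _ _ _ 0 _ _ T00 b01 (by omega))
      (mulLow hU A B _ _ _ 1 _ _ a01 M11 (by omega))
  · rw [Matrix.mul_apply, Fin.sum_univ_two]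
    exact (US (A + B) _).add_mem (mulLow hU A B _ _ _ 0 _ _ a10 M00 (by omega))
      (mulLow hU A B _ _ _ 1 _ _ T11 b10 (by omega))
  · refine ⟨G * G', (c₀ * (G' + U') + (G + U) * c₀') + (G * U' + U * G' + U * U') +
      T 0 1 * M 1 0, hF.2.2.2 P Q P' Q' G G' hG hG', ?_, ?_⟩
    · refine (US (A + B) _).add_mem ((US (A + B) _).add_mem ((US (A + B) _).add_mem ?_ ?_)
        ((US (A + B) _).add_mem ((US (A + B) _).add_mem ?_ ?_) ?_)) ?_
      · exact mulLow hU A B _ _ _ (i + 1) _ _ a0 ((US B _).add_mem gG' hUU') (by omega)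
      · exact mulLow hU A B _ _ _ 1 _ _ ((US A _).add_mem gG hUU) b0 (by omega)
      · exact mulLow hU A B _ _ _ 0 _ _ gG hUU' (by omega)
      · exact mulLow hU A B _ _ _ 0 _ _ hUU gG' (by omega)
      · exact mulLow hU A B _ _ _ 0 _ _ hUU hUU' (by omega)
      · exact mulLow hU A B _ _ _ 1 _ _ a01 b10 (by omega)
    · rw [Matrix.mul_apply, Fin.sum_univ_two, a00, b00]
      ring
  · refine ⟨T 1 0 * M 0 1 + (c₁ * V1' + V1 * c₁' + V1 * V1'), ?_, ?_⟩
    · refine (US (A + B) _).add_mem ?_ ((US (A + B) _).add_mem ((US (A + B) _).add_mem ?_ ?_) ?_)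
      · exact mulLow hU A B _ _ _ 0 _ _ a10 b01 (by omega)
      · exact mulLow hU A B _ _ _ (i + 1) _ _ a1 hV' (by omega)
      · exact mulLow hU A B _ _ _ 1 _ _ hV b1 (by omega)
      · exact mulLow hU A B _ _ _ 1 _ _ hV hV' (by omega)
    · rw [Matrix.mul_apply, Fin.sum_univ_two, a11, b11]
      ring

end Pool.Agent.HMU
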