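import Pool.Agent.HMU.Spec

set_option autoImplicit false

namespace Pool.Agent.HMU

open Polynomial Matrix Pool.Agent.HMA Pool.Agent.HMT Pool.Agent.HMS

namespace MGLAux

theorem units_cons (x : Pd) (l : List Pd) : units (x :: l) = units [x] ++ units l := by
  simp [units]

theorem eA_cons (x : Pd) (l : List Pd) : eA (units (x :: l)) = eA (units l) * eA (units [x]) := by
  rw [units_cons]
  unfold eA
  rw [List.map_append, List.prod_append, mul_comm]

theorem eB_cons (x : Pd) (l : List Pd) : eB (units (x :: l)) = eB (units l) * eB (units [x]) := by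
  rw [units_cons]
  unfold eB
  rw [List.map_append, List.prod_append, mul_comm]

end MGLAux

open MGLAux in
theorem tMGL : S_MG1 → S_MG2 → S_MGL := by
  intro h1 h2 l
  induction l with
  | nil => intro P Q hl _; exact absurd rfl hl
  | cons x l ih =>
    intro P Q _ hP
    obtain ⟨p, q, P', Q', hx, hl, rfl, rfl⟩ := hP
    have hM := h1 x p q hx
    rcases l with _ | ⟨y, l⟩
    · obtain ⟨rfl, rfl⟩ := hl
      have e : TM [x] = LR x := by simp [TM]
      rw [e]
      simpa using hM
    · have hT := ih P' Q' (by simp) hl
      have hk : 1 ≤ (y :: l).length := by simp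
      have h := h2 _ _ _ _ _ _ _ _ _ _ _ hk hT hM
      rw [eA_cons, eB_cons]
      have e : TM (x :: y :: l) = TM (y :: l) * LR x := rfl
      rw [e, add_comm (∑ i, p i + 2) P', add_comm (∑ i, q i + 2) Q']
      exact h

end Pool.Agent.HMU
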