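import Pool.Agent.HMU.Spec

/-! HMU, module `PD`: differences of products of Chebyshev polynomials. -/

set_option autoImplicit false

namespace Pool.Agent.HMU

open Polynomial Matrix Pool.Agent.HMA Pool.Agent.HMT Pool.Agent.HMS

namespace PDAux

theorem SS_succ2 (k : ℕ) : SS (k + 2) = X * SS (k + 1) - SS k := rfl

theorem key : ∀ a b : ℕ, SS (a + 1) * SS (b + 1) = SS a * SS b + SS (a + b + 2)
  | 0, b => by
    have e1 : SS (0 + 1) = X := rfl
    have e0 : SS 0 = 1 := rfl
    have e2 : SS (0 + b + 2) = X * SS (b + 1) - SS b := by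
      rw [Nat.zero_add]
      exact SS_succ2 b
    rw [e1, e0, e2]
    ring
  | 1, b => by
    have e1 : SS (1 + 1) = X * X - 1 := rfl
    have e0 : SS 1 = X := rfl
    have e3 : SS (1 + b + 2) = X * SS (b + 2) - SS (b + 1) := by
      have : 1 + b + 2 = (b + 1) + 2 := by omega
      rw [this]
      exact SS_succ2 (b + 1)
    rw [e1, e0, e3, SS_succ2 b]
    ring
  | a + 2, b => by
    have h1 := key (a + 1) b
    have h0 := key a b
    have e1 : SS (a + 2 + 1) = X * SS (a + 2) - SS (a + 1) := SS_succ2 (a + 1)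
    have e2 : SS (a + 2 + b + 2) = X * SS (a + 1 + b + 2) - SS (a + b + 2) := by
      have h2 : a + 2 + b + 2 = (a + b + 2) + 2 := by omega
      have h3 : a + 1 + b + 2 = (a + b + 2) + 1 := by omega
      rw [h2, h3]
      exact SS_succ2 (a + b + 2)
    have e3 : SS (a + 1 + 1) = X * SS (a + 1) - SS a := SS_succ2 a
    rw [e3] at h1
    rw [e1, e2, SS_succ2 a]
    linear_combination X * h1 - h0

theorem sg_fst : ∀ k : ℕ, (sg (k + 1)).1 = SS k
  | 0 => rfl
  | 1 => by
    change X * (sg 1).1 - (sg 0).1 = X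
    change X * (1 : ℤ[X]) - 0 = X
    ring
  | k + 2 => by
    have h1 := sg_fst (k + 1)
    have h0 := sg_fst k
    change X * (sg (k + 1 + 1)).1 - (sg (k + 1)).1 = X * SS (k + 1) - SS k
    rw [h1, h0]

theorem Sn_succ (n : ℕ) : Sn (n + 1) = SS n := sg_fst n

theorem Sn_zero : Sn 0 = 0 := rfl

theorem diff (p q : ℕ) : Sn (p + 1) * Sn (q + 1) = Sn p * Sn q + SS (p + q) := by
  rcases p with _ | p
  · rw [Sn_zero, Sn_succ, Sn_succ]
    have e0 : SS 0 = 1 := rfl
    rw [e0, Nat.zero_add]
    ring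
  rcases q with _ | q
  · rw [Sn_zero, Sn_succ, Sn_succ]
    have e0 : SS 0 = 1 := rfl
    rw [e0, Nat.add_zero]
    ring
  · rw [Sn_succ, Sn_succ, Sn_succ, Sn_succ, key p q]
    have : p + 1 + (q + 1) = p + q + 2 := by omega
    rw [this]

theorem tele (a b : ℕ) : ∀ m : ℕ, Sn (m + a) * Sn (m + b) =
    Sn a * Sn b + ∑ i ∈ Finset.range m, SS (2 * i + (a + b))
  | 0 => by simp
  | m + 1 => by
    have h1 : m + 1 + a = (m + a) + 1 := by omega
    have h2 : m + 1 + b = (m + b) + 1 := by omega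
    have h3 : m + a + (m + b) = 2 * m + (a + b) := by omega
    rw [h1, h2, diff, tele a b m, Finset.sum_range_succ, h3]
    ring

theorem gen (N c k i : ℕ) (h : k + 2 * i + c = N) : SS k ∈ US N c :=
  AddSubmonoid.subset_closure ⟨k, i, h, rfl⟩

end PDAux

open PDAux in
theorem tPD : S_Cheb → S_PD := by
  intro hC
  refine ⟨?_, ?_⟩
  · intro m n j
    have h := tele m n j
    rw [Nat.add_comm j m, Nat.add_comm j n] at h
    rw [h, add_sub_cancel_left]
    refine AddSubmonoid.sum_mem _ fun i hi => ?_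
    rw [Finset.mem_range] at hi
    exact gen _ _ _ (j - 1 - i) (by omega)
  · intro m n j hmn
    obtain ⟨r, rfl⟩ := Nat.exists_eq_add_of_le hmn
    have h1 := tele j r m
    have h2 := tele 0 (r + j) m
    have e : Sn (m + j) * Sn (m + r) - Sn m * Sn (m + r + j) = Sn j * Sn r := by
      rw [h1]
      have h3 : Sn m * Sn (m + r + j) = Sn (m + 0) * Sn (m + (r + j)) := by
        rw [Nat.add_zero, Nat.add_assoc]
      rw [h3, h2, Sn_zero]
      have h4 : 0 + (r + j) = j + r := by omega
      rw [h4]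
      ring
    rw [e]
    rcases j with _ | j
    · rw [Sn_zero, zero_mul]
      exact AddSubmonoid.zero_mem _
    rcases r with _ | r
    · rw [Sn_zero, mul_zero]
      exact AddSubmonoid.zero_mem _
    rw [Sn_succ, Sn_succ]
    have hj : SS j ∈ Uni j := AddSubmonoid.subset_closure ⟨j, 0, by omega, rfl⟩
    have hr : SS r ∈ Uni r := AddSubmonoid.subset_closure ⟨r, 0, by omega, rfl⟩
    have hp := hC.2.1 j r _ _ hj hr
    have hle : Uni (j + r) ≤ US (m + (m + (r + 1)) + (j + 1)) 2 := by
      refine AddSubmonoid.closure_le.2 ?_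
      rintro f ⟨k, i, hk, rfl⟩
      exact gen _ _ k (i + m) (by omega)
    exact hle hp

end Pool.Agent.HMU
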