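import Pool.Agent.HMU.Spec

/-!
# HMU, ParG: words of parallel letters, all lengths
-/

set_option autoImplicit false

namespace Pool.Agent.HMU

open Polynomial Matrix Pool.Agent.HMA Pool.Agent.HMT Pool.Agent.HMS

namespace ParGAux

/-- The state after `n` parallel letters in alternating columns, beginning with `c`. -/
def it : Bool → ℕ → St → St
  | _, 0, s => s
  | c, n + 1, s => it (!c) n (swp c s)

lemma pp_it (L : List Ltr) : ∀ (c : Bool) (s s' : St), altB c L → PPth L s s' →
    s' = it c L.length s := by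
  induction L with
  | nil =>
    intro c s s' _ h
    exact (show s = s' from h).symm
  | cons x L ih =>
    intro c s s' hA hP
    obtain ⟨h1, h2⟩ := hA
    obtain ⟨_, h3⟩ := hP
    have h1' : x.1 = c := h1
    rw [h1'] at h3
    exact ih (!c) (swp c s) s' h2 h3

lemma pp_app (L : List Ltr) : ∀ (L' : List Ltr) (s s' : St), PPth (L ++ L') s s' ↔
    ∃ r, PPth L s r ∧ PPth L' r s' := by
  induction L with
  | nil =>
    intro L' s s'
    constructor
    · intro h
      exact ⟨s, rfl, h⟩
    · rintro ⟨r, h1, h2⟩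
      have h1' : s = r := h1
      rw [h1']
      exact h2
  | cons x L ih =>
    intro L' s s'
    constructor
    · rintro ⟨h1, h2⟩
      obtain ⟨r, h3, h4⟩ := (ih L' (swp x.1 s) s').1 h2
      exact ⟨r, ⟨h1, h3⟩, h4⟩
    · rintro ⟨r, ⟨h1, h3⟩, h4⟩
      exact ⟨h1, (ih L' (swp x.1 s) s').2 ⟨r, h3, h4⟩⟩

/-- The column after `n` letters. -/
def cl : Bool → ℕ → Bool
  | c, 0 => c
  | c, n + 1 => cl (!c) n

lemma cl_par (n : ℕ) : ∀ c : Bool, (Even n → cl c n = c) ∧ (Odd n → cl c n = !c) := by
  induction n with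
  | zero =>
    intro c
    exact ⟨fun _ => rfl, fun h => absurd h (by decide)⟩
  | succ n ih =>
    intro c
    refine ⟨fun h => ?_, fun h => ?_⟩
    · have h1 : Odd n := by
        rcases Nat.even_or_odd n with h2 | h2
        · exact absurd h (by rw [Nat.even_add_one]; exact not_not.2 h2)
        · exact h2
      have h3 := (ih (!c)).2 h1
      rw [Bool.not_not] at h3
      exact h3
    · have h1 : Even n := by
        rcases Nat.even_or_odd n with h2 | h2
        · exact h2
        · exact absurd h (by rw [Nat.odd_add_one]; exact not_not.2 h2)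
      exact (ih (!c)).1 h1

lemma alt_app (L : List Ltr) : ∀ (L' : List Ltr) (c : Bool), altB c (L ++ L') ↔
    altB c L ∧ altB (cl c L.length) L' := by
  induction L with
  | nil =>
    intro L' c
    exact ⟨fun h => ⟨trivial, h⟩, fun h => h.2⟩
  | cons x L ih =>
    intro L' c
    constructor
    · rintro ⟨h1, h2⟩
      obtain ⟨h3, h4⟩ := (ih L' (!c)).1 h2
      exact ⟨⟨h1, h3⟩, h4⟩
    · rintro ⟨⟨h1, h3⟩, h4⟩
      exact ⟨h1, (ih L' (!c)).2 ⟨h3, h4⟩⟩

lemma it_six (n : ℕ) (s : St) : it true (n + 6) s = it true n s := by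
  obtain ⟨a, b, c⟩ := s
  rfl

lemma r1 {a b c : Bool} (h : ((b, c, a) : St) = (a, b, c)) : Unif (a, b, c) := by
  have e1 : b = a := congrArg (fun t : St => t.1) h
  have e2 : c = b := congrArg (fun t : St => t.2.1) h
  exact ⟨e1.symm, e2.symm⟩

lemma r2 {a b c : Bool} (h : ((c, a, b) : St) = (a, b, c)) : Unif (a, b, c) := by
  have e1 : a = b := congrArg (fun t : St => t.2.1) h
  have e2 : b = c := congrArg (fun t : St => t.2.2) h
  exact ⟨e1, e2⟩

lemma six_dvd (n : ℕ) : ∀ s : St, Even n → it true n s = s → ¬ Unif s → 6 ∣ n := by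
  induction n using Nat.strong_induction_on with
  | _ n ih =>
    intro s hE hs hU
    obtain ⟨a, b, c⟩ := s
    rcases Nat.lt_or_ge n 6 with h | h
    · interval_cases n
      · exact dvd_zero 6
      · exact absurd hE (by decide)
      · exact absurd (r1 hs) hU
      · exact absurd hE (by decide)
      · exact absurd (r2 hs) hU
      · exact absurd hE (by decide)
    · obtain ⟨m, rfl⟩ : ∃ m, n = m + 6 := ⟨n - 6, by omega⟩
      rw [it_six] at hs
      have hm : Even m := by
        rcases Nat.even_or_odd m with h2 | h2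
        · exact h2
        · exact absurd (Odd.add_even h2 (show Even 6 by decide)) (Nat.not_odd_iff_even.2 hE)
      have := ih m (by omega) (a, b, c) hm hs hU
      omega

/-- Rotating by an odd number of letters. -/
lemma rotG (hC : S_Cyc) (hL : S_Leaf) (hK : S_Chunk) (L : List Ltr) (s : St) (d : Bool) (j k : ℕ)
    (hA : altB true L) (hlen : L.length = 6 * k) (hk : 0 < k) (hP : PPth L s s) (hj : Odd j)
    (hj6 : j ≤ 6) (hs : it true j s = (d, !d, d)) : Good L := by
  set l₁ := L.take j with hl1
  set l₂ := L.drop j with hl2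
  have e : L = l₁ ++ l₂ := (List.take_append_drop j L).symm
  have n1 : l₁.length = j := by
    rw [hl1, List.length_take]
    omega
  have n2 : l₂.length = 6 * k - j := by
    rw [hl2, List.length_drop, hlen]
  rw [e] at hA hP
  obtain ⟨a1, a2⟩ := (alt_app l₁ l₂ true).1 hA
  obtain ⟨r, p1, p2⟩ := (pp_app l₁ l₂ s s).1 hP
  have hr : r = (d, !d, d) := by
    rw [pp_it l₁ true s r a1 p1, n1, hs]
  have c1 : cl true l₁.length = false := by
    rw [n1]
    exact (cl_par j true).2 hj
  rw [c1] at a2
  have o2 : Odd l₂.length := by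
    rw [n2]
    refine Nat.Even.sub_odd (by omega) ?_ hj
    exact (show Even 6 by decide).mul_right k
  have c2 : cl false l₂.length = true := (cl_par l₂.length false).2 o2
  have a3 : altB false (l₂ ++ l₁) := (alt_app l₂ l₁ false).2 ⟨a2, by rw [c2]; exact a1⟩
  have p3 : PPth (l₂ ++ l₁) (d, !d, d) (d, !d, d) := by
    rw [hr] at p1 p2
    exact (pp_app l₂ l₁ (d, !d, d) (d, !d, d)).2 ⟨s, p2, p1⟩
  have n3 : (l₂ ++ l₁).length = 6 * k := by
    rw [List.length_append, n1, n2]
    omega
  obtain ⟨ys, hy1, hy2, hy3⟩ := hK k (l₂ ++ l₁) d (d, !d, d) a3 n3 p3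
  have hne : ys ≠ [] := by
    intro h
    rw [h, List.length_nil] at hy1
    omega
  have hG : Good (l₂ ++ l₁) := by
    rw [hy2]
    exact hL d ys hne hy3
  rw [e]
  exact hC l₂ l₁ hG

end ParGAux

open ParGAux in
theorem tParG : S_Cyc → S_Leaf → S_Chunk → S_ParG := by
  intro hC hL hK L s hA hE hne hP hU
  have h0 : it true L.length s = s := (pp_it L true s s hA hP).symm
  obtain ⟨k, hk⟩ := six_dvd L.length s hE h0 hU
  have hpos : 0 < k := by
    rcases Nat.eq_zero_or_pos k with h | h
    · exfalso
      rw [h, Nat.mul_zero] at hk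
      exact hne (List.length_eq_zero_iff.1 hk)
    · exact h
  obtain ⟨a, b, c⟩ := s
  have hab : a = b ∨ a = !b := by cases a <;> cases b <;> simp
  have hbc : c = b ∨ c = !b := by cases c <;> cases b <;> simp
  rcases hab with rfl | rfl
  · rcases hbc with rfl | rfl
    · exact absurd ⟨rfl, rfl⟩ hU
    · exact rotG hC hL hK L _ a 5 k hA hk hpos hP (by decide) (by decide) rfl
  · rcases hbc with rfl | rfl
    · exact rotG hC hL hK L _ c 1 k hA hk hpos hP (by decide) (by decide) rfl
    · refine rotG hC hL hK L _ (!b) 3 k hA hk hpos hP (by decide) (by decide) ?_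
      rw [Bool.not_not]
      rfl

end Pool.Agent.HMU
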