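import Pool.Agent.HMU.Spec

/-!
# HMU, Sadd: addition formulas

By `HMA.S_Cone1`, `pm (sg k) (sg l) = sg (k + l)`, and `κ A + B` is multiplicative since `κ² = u κ - 1`.
-/

set_option autoImplicit false

namespace Pool.Agent.HMU

open Polynomial Matrix Pool.Agent.HMA Pool.Agent.HMT Pool.Agent.HMS

namespace SaddAux

theorem kap_add (c : Bool) (ξ : ℝ) : kap c ξ + kap (!c) ξ = ξ + ξ⁻¹ := by
  cases c <;> simp [kap, add_comm]

theorem kap_mul (c : Bool) (ξ : ℝ) (h : 0 < ξ) : kap c ξ * kap (!c) ξ = 1 := by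
  cases c <;> simp [kap, h.ne']

theorem kap_sq (c : Bool) (ξ : ℝ) (h : 0 < ξ) : kap c ξ * kap c ξ = (ξ + ξ⁻¹) * kap c ξ - 1 := by
  have h1 := kap_add c ξ
  have h2 := kap_mul c ξ h
  linear_combination kap c ξ * h1 - h2

theorem ev_X (ξ : ℝ) : ev ξ X = ξ + ξ⁻¹ := by simp [ev]

theorem ev_mul (ξ : ℝ) (f g : ℤ[X]) : ev ξ (f * g) = ev ξ f * ev ξ g := by simp [ev]

theorem ev_add (ξ : ℝ) (f g : ℤ[X]) : ev ξ (f + g) = ev ξ f + ev ξ g := by simp [ev]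

theorem ev_sub (ξ : ℝ) (f g : ℤ[X]) : ev ξ (f - g) = ev ξ f - ev ξ g := by simp [ev]

theorem ev_zero (ξ : ℝ) : ev ξ 0 = 0 := by simp [ev]

theorem ev_one (ξ : ℝ) : ev ξ 1 = 1 := by simp [ev]

theorem phi_sg (c : Bool) (ξ : ℝ) (h : 0 < ξ) :
    ∀ k : ℕ, phi c ξ (sg k) = kap c ξ ^ k ∧ phi c ξ (sg (k + 1)) = kap c ξ ^ (k + 1)
  | 0 => by
    constructor
    · simp only [phi, sg, ev_zero, ev_one, mul_zero, zero_add, pow_zero]
    · simp only [phi, sg, ev_zero, ev_one, mul_one, add_zero, zero_add, pow_one]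
  | k + 1 => by
    obtain ⟨h1, h2⟩ := phi_sg c ξ h k
    refine ⟨h2, ?_⟩
    have h3 := kap_sq c ξ h
    simp only [phi] at h1 h2 ⊢
    rw [show sg (k + 1 + 1) = (X * (sg (k + 1)).1 - (sg k).1, X * (sg (k + 1)).2 - (sg k).2) from by
      rw [sg]]
    simp only [ev_sub, ev_mul, ev_X]
    linear_combination (ξ + ξ⁻¹) * h2 - h1 - kap c ξ ^ k * h3

theorem phi_pm (c : Bool) (x y : V) (ξ : ℝ) (h : 0 < ξ) :
    phi c ξ (pm x y) = phi c ξ x * phi c ξ y := by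
  have h3 := kap_sq c ξ h
  simp only [phi, pm, ev_sub, ev_mul, ev_X, ev_add]
  linear_combination -(ev ξ x.1 * ev ξ y.1) * h3

end SaddAux

open SaddAux in
theorem tSadd : S_Cone1 → S_Sadd := by
  rintro ⟨c1, c2, -⟩
  have add : ∀ (c : Bool) (m n : ℕ) (ξ : ℝ), 0 < ξ →
      ev ξ (Sn (m + n)) = kap c ξ ^ m * ev ξ (Sn n) + kap (!c) ξ ^ n * ev ξ (Sn m) := by
    intro c m n ξ h
    have h1 := (phi_sg c ξ h m).1
    have h2 := (phi_sg (!c) ξ h n).1
    have h3 := kap_add c ξ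
    rw [← h1, ← h2]
    simp only [Sn, ← c2 m n, pm, phi, ev_add, ev_mul, ev_X]
    linear_combination -(ev ξ (sg m).1 * ev ξ (sg n).1) * h3
  refine ⟨c1, ?_, add, fun c k ξ h => (phi_sg c ξ h k).1, fun c x y ξ h => phi_pm c x y ξ h, ?_, ?_⟩
  · simp only [Sn, sg]
  · intro W b x ξ h
    have h1 := add false W b ξ h
    have h2 := add true W x ξ h
    have h3 := add true b x ξ h
    simp only [Bool.not_false, Bool.not_true] at h1 h2 h3
    rw [h1, h2, h3]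
    ring
  · intro k l
    rw [c2, Sn]

end Pool.Agent.HMU
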