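import Pool.Agent.HMU.Spec
import Pool.Agent.HMS.SymL

/-!
# HMU, module TpM: `gg` as a trace minus a product
-/

set_option autoImplicit false

namespace Pool.Agent.HMU

open Polynomial Matrix Pool.Agent.HMA Pool.Agent.HMT Pool.Agent.HMS

namespace TpMAux

theorem ev_mul (ξ : ℝ) (f g : ℤ[X]) : ev ξ (f * g) = ev ξ f * ev ξ g := by
  unfold ev
  exact map_mul _ _ _

theorem ev_add (ξ : ℝ) (f g : ℤ[X]) : ev ξ (f + g) = ev ξ f + ev ξ g := by
  unfold ev
  exact map_add _ _ _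

theorem ev_one (ξ : ℝ) : ev ξ 1 = 1 := by
  unfold ev
  exact map_one _

theorem ev_zero (ξ : ℝ) : ev ξ 0 = 0 := by
  unfold ev
  exact map_zero _

theorem kk (d : Bool) (ξ : ℝ) (h : 0 < ξ) : kap d ξ * kap (!d) ξ = 1 := by
  cases d
  · simp only [kap, Bool.false_eq_true, if_false, Bool.not_false, if_true]
    exact inv_mul_cancel₀ h.ne'
  · simp only [kap, if_true, Bool.not_true, Bool.false_eq_true, if_false]
    exact mul_inv_cancel₀ h.ne'

theorem ga_mul (d : Bool) (ξ : ℝ) (h : 0 < ξ) (M N : Matrix (Fin 2) (Fin 2) ℤ[X]) :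
    ga d ξ (M * N) = ga d ξ M * ga d ξ N := by
  have hk := kk d ξ h
  ext i j
  fin_cases i <;> fin_cases j
  · simp only [ga, Matrix.mul_apply, Fin.sum_univ_two]
    simp [ev_mul, ev_add]
    linear_combination -(ev ξ (M 0 1) * ev ξ (N 1 0)) * hk
  · simp only [ga, Matrix.mul_apply, Fin.sum_univ_two]
    simp [ev_mul, ev_add]
    ring
  · simp only [ga, Matrix.mul_apply, Fin.sum_univ_two]
    simp [ev_mul, ev_add]
    ring
  · simp only [ga, Matrix.mul_apply, Fin.sum_univ_two]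
    simp [ev_mul, ev_add]
    linear_combination -(ev ξ (M 1 0) * ev ξ (N 0 1)) * hk

theorem ga_one (d : Bool) (ξ : ℝ) : ga d ξ 1 = 1 := by
  ext i j
  fin_cases i <;> fin_cases j <;> simp [ga, ev_one, ev_zero]

/-- constant row sums -/
def RS (t : T3) : Prop := ∀ i : Fin 3, t.1 i 0 + t.1 i 1 + t.1 i 2 = t.2.1

theorem rs_mul (s t : T3) (hs : RS s) (ht : RS t) : RS (s * t) := by
  intro i
  have e1 : (s * t).1 = s.1 * t.1 := rfl
  have e2 : (s * t).2.1 = s.2.1 * t.2.1 := rfl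
  rw [e1, e2]
  simp only [Matrix.mul_apply, Fin.sum_univ_three]
  have h0 := ht 0
  have h1 := ht 1
  have h2 := ht 2
  have hi := hs i
  linear_combination s.1 i 0 * h0 + s.1 i 1 * h1 + s.1 i 2 * h2 + t.2.1 * hi

theorem main (hR : S_BlkR) (hL : S_BlkL) (d : Bool) (ξ : ℝ) (h : 0 < ξ) (l : List Pd) :
    RS (tp d ξ l) ∧ rho (tp d ξ l).1 = ga d ξ (TM l) ∧
    (tp d ξ l).2.1 = ev ξ (eD (units l)) * eP d ξ (units l) ∧
    (tp d ξ l).2.2 = ev ξ (eD (units l)) * eP (!d) ξ (units l) := by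
  induction l with
  | nil =>
    refine ⟨fun i => ?_, ?_, ?_, ?_⟩
    · have e : (tp d ξ []) = 1 := rfl
      rw [e]
      fin_cases i <;> simp
    · have e : (tp d ξ []).1 = 1 := rfl
      have e' : TM [] = 1 := rfl
      rw [e, e', ga_one, SymLAux.rho_one]
    · have e : (tp d ξ []).2.1 = 1 := rfl
      rw [e]
      simp [units, eD, eP, ev_one]
    · have e : (tp d ξ []).2.2 = 1 := rfl
      rw [e]
      simp [units, eD, eP, ev_one]
  | cons x l ih =>
    obtain ⟨i1, i2, i3, i4⟩ := ih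
    obtain ⟨r1, r2, r3, r4⟩ := hR d ξ (x 0) (x 1) (x 2) h
    obtain ⟨l1, l2, l3, l4⟩ := hL d ξ (x 3) (x 4) (x 5) h
    have eu : units (x :: l) = ⟨false, x 1, x 0, x 2⟩ :: ⟨true, x 4, x 5, x 3⟩ :: units l := rfl
    have eD1 : eD (units (x :: l)) =
        (x 0).1 * (x 2).1 * ((x 5).1 * (x 3).1 * eD (units l)) := by
      rw [eu]
      unfold eD
      rw [List.map_cons, List.map_cons, List.prod_cons, List.prod_cons]
    have eP1 : ∀ c : Bool, eP c ξ (units (x :: l)) =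
        phi (!c) ξ (x 1) * (phi c ξ (x 4) * eP c ξ (units l)) := by
      intro c
      rw [eu]
      unfold eP
      rw [List.map_cons, List.map_cons, List.prod_cons, List.prod_cons]
      cases c <;> rfl
    have et : tp d ξ (x :: l) =
        tp d ξ l * (tL d ξ (x 3) (x 4) (x 5) * tR d ξ (x 0) (x 1) (x 2)) := rfl
    have em : (tp d ξ (x :: l)).1 =
        (tp d ξ l).1 * ((tL d ξ (x 3) (x 4) (x 5)).1 * (tR d ξ (x 0) (x 1) (x 2)).1) := rfl
    have en : (tp d ξ (x :: l)).2.1 =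
        (tp d ξ l).2.1 * ((tL d ξ (x 3) (x 4) (x 5)).2.1 * (tR d ξ (x 0) (x 1) (x 2)).2.1) := rfl
    have en' : (tp d ξ (x :: l)).2.2 =
        (tp d ξ l).2.2 * ((tL d ξ (x 3) (x 4) (x 5)).2.2 * (tR d ξ (x 0) (x 1) (x 2)).2.2) := rfl
    refine ⟨?_, ?_, ?_, ?_⟩
    · rw [et]
      exact rs_mul _ _ i1 (rs_mul _ _ l1 r1)
    · have eT : TM (x :: l) = TM l * (Lm (x 3) (x 4) (x 5) * Rm (x 0) (x 1) (x 2)) := rfl
      rw [em, eT, SymLAux.rho_mul _ _ _ i1, SymLAux.rho_mul _ _ _ l1, i2, l2, r2, ga_mul d ξ h,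
        ga_mul d ξ h]
    · rw [en, i3, l3, r3, eD1, eP1]
      simp only [ev_mul]
      ring
    · rw [en', i4, l4, r4, eD1, eP1]
      simp only [ev_mul, Bool.not_not]
      ring

end TpMAux

open TpMAux in
theorem tTpM (hR : S_BlkR) (hL : S_BlkL) : S_TpM := by
  intro d ξ l h
  obtain ⟨h1, h2, h3, h4⟩ := main hR hL d ξ h l
  rw [SymLAux.gg_eq _ h1, h2, h3, h4]
  have e0 : ga d ξ (TM l) 0 0 = ev ξ (TM l 0 0) := rfl
  have e1 : ga d ξ (TM l) 1 1 = ev ξ (TM l 1 1) := rfl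
  rw [e0, e1]
  cases d
  · simp only [Bool.not_false]
    ring
  · simp only [Bool.not_true]
    ring

end Pool.Agent.HMU
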