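import Pool.Agent.HMU.Spec

/-!
# HMU, module Two: two factors
-/

set_option autoImplicit false

namespace Pool.Agent.HMU

open Polynomial Matrix Pool.Agent.HMA Pool.Agent.HMT Pool.Agent.HMS

/-- Same sign. -/
private theorem Two_same (h2 : ∀ m n j : ℕ, m ≤ n → Sn (m + j) * Sn n - Sn m * Sn (n + j) ∈ US (m + n + j) 2)
    (b b' a a' c : ℕ) (hc : c = a + a') :
    (Sn (a + b) * Sn (a' + b') - Sn (c + b) * Sn b' ∈ US (a + b + (a' + b')) 2) ∨
    (Sn (a + b) * Sn (a' + b') - Sn b * Sn (c + b') ∈ US (a + b + (a' + b')) 2) := by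
  rcases le_total b b' with h | h
  · right
    have e := h2 b (a' + b') a (by omega)
    rw [show b + a = a + b by omega, show a' + b' + a = c + b' by omega,
      show b + (a' + b') + a = a + b + (a' + b') by omega] at e
    exact e
  · left
    have e := h2 b' (a + b) a' (by omega)
    rw [show b' + a' = a' + b' by omega, show a + b + a' = c + b by omega,
      show b' + (a + b) + a' = a + b + (a' + b') by omega, mul_comm (Sn (a' + b')) (Sn (a + b)),
      mul_comm (Sn b') (Sn (c + b))] at e
    exact e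

/-- Different signs. -/
private theorem Two_diff (h1 : ∀ m n j : ℕ, Sn (m + j) * Sn (n + j) - Sn m * Sn n ∈ US (m + n + 2 * j) 2)
    (b b' a a' c : ℕ) (hc : c = a - a' ∧ a' ≤ a ∨ c = a' - a ∧ a ≤ a') :
    (Sn (a + b) * Sn (a' + b') - Sn (c + b) * Sn b' ∈ US (a + b + (a' + b')) 2) ∨
    (Sn (a + b) * Sn (a' + b') - Sn b * Sn (c + b') ∈ US (a + b + (a' + b')) 2) := by
  rcases hc with ⟨hc, h⟩ | ⟨hc, h⟩
  · left
    have e := h1 (c + b) b' a'
    rw [show c + b + a' = a + b by omega, show b' + a' = a' + b' by omega,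
      show c + b + b' + 2 * a' = a + b + (a' + b') by omega] at e
    exact e
  · right
    have e := h1 b (c + b') a
    rw [show b + a = a + b by omega, show c + b' + a = a' + b' by omega,
      show b + (c + b') + 2 * a = a + b + (a' + b') by omega] at e
    exact e

theorem tTwo : S_PD → S_Two := by
  intro hPD b b' s s'
  obtain ⟨h1, h2⟩ := hPD
  rcases le_total 0 s with hs | hs <;> rcases le_total 0 s' with hs' | hs'
  · exact Two_same h2 b b' _ _ _ (by omega)
  · exact Two_diff h1 b b' _ _ _ (by omega)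
  · exact Two_diff h1 b b' _ _ _ (by omega)
  · exact Two_same h2 b b' _ _ _ (by omega)

end Pool.Agent.HMU
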