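import Pool.Agent.HMU.Spec

/-!
# HMU, USB: the cones `US`
-/

set_option autoImplicit false

namespace Pool.Agent.HMU

open Polynomial Matrix Pool.Agent.HMA Pool.Agent.HMT Pool.Agent.HMS

namespace USBAux

theorem uni_eq (N c : ℕ) : Uni N = US (N + c) c := by
  unfold Uni US
  apply congrArg
  ext f
  constructor
  · rintro ⟨k, i, h, rfl⟩
    exact ⟨k, i, by omega, rfl⟩
  · rintro ⟨k, i, h, rfl⟩
    exact ⟨k, i, by omega, rfl⟩

theorem gen (N c k i : ℕ) (h : k + 2 * i + c = N) : SS k ∈ US N c :=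
  AddSubmonoid.subset_closure ⟨k, i, h, rfl⟩

theorem le3 (N c i : ℕ) : US N (c + 2 * i) ≤ US N c := by
  unfold US
  rw [AddSubmonoid.closure_le]
  rintro f ⟨k, j, h, rfl⟩
  exact gen N c k (j + i) (by omega)

theorem le4 (N c i : ℕ) : US N c ≤ US (N + 2 * i) c := by
  have h1 : US N c = AddSubmonoid.closure {f | ∃ k i, k + 2 * i + c = N ∧ f = SS k} := rfl
  rw [h1, AddSubmonoid.closure_le]
  rintro f ⟨k, j, h, rfl⟩
  exact gen (N + 2 * i) c k (j + i) (by omega)

theorem self (k : ℕ) : SS k ∈ Uni k :=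
  AddSubmonoid.subset_closure ⟨k, 0, by omega, rfl⟩

theorem mul2 (hC : HMA.S_Cheb) (a b c d : ℕ) (F G : ℤ[X]) (hF : F ∈ US a c) (hG : G ∈ US b d) :
    F * G ∈ US (a + b) (c + d) := by
  unfold US at hF
  induction hF using AddSubmonoid.closure_induction with
  | mem x hx =>
    obtain ⟨k, i, h, rfl⟩ := hx
    unfold US at hG
    induction hG using AddSubmonoid.closure_induction with
    | mem y hy =>
      obtain ⟨k', i', h', rfl⟩ := hy
      have h1 : SS k * SS k' ∈ Uni (k + k') := hC.2.1 k k' _ _ (self k) (self k')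
      rw [uni_eq (k + k') (c + d)] at h1
      have h2 := le4 _ _ (i + i') h1
      have h3 : k + k' + (c + d) + 2 * (i + i') = a + b := by omega
      rw [h3] at h2
      exact h2
    | zero => rw [mul_zero]; exact zero_mem _
    | add x y _ _ hx hy => rw [mul_add]; exact add_mem hx hy
  | zero => rw [zero_mul]; exact zero_mem _
  | add x y _ _ hx hy => rw [add_mul]; exact add_mem hx hy

theorem sg1 (n : ℕ) : (HMA.sg (n + 1)).1 = SS n ∧ (HMA.sg (n + 2)).1 = SS (n + 1) := by
  induction n with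
  | zero =>
    refine ⟨rfl, ?_⟩
    show X * (1 : ℤ[X]) - 0 = X
    ring
  | succ n ih =>
    refine ⟨ih.2, ?_⟩
    show X * (HMA.sg (n + 2)).1 - (HMA.sg (n + 1)).1 = X * SS (n + 1) - SS n
    rw [ih.1, ih.2]

end USBAux

open USBAux in
/-- The cones `US`. -/
theorem tUSB : S_Cheb → S_USB := by
  intro hC
  refine ⟨fun N c F => by rw [uni_eq N c], fun a b c d F G hF hG => mul2 hC a b c d F G hF hG,
    fun N c i F hF => le3 N c i hF, fun N c i F hF => le4 N c i hF, fun n => ?_⟩
  cases n with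
  | zero =>
    show (0 : ℤ[X]) ∈ US 0 1
    exact zero_mem _
  | succ n =>
    have h : Sn (n + 1) = SS n := (sg1 n).1
    rw [h]
    exact gen (n + 1) 1 n 0 (by omega)

end Pool.Agent.HMU
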