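import Pool.Agent.HMS.Main
import Pool.Agent.HMU.USB
import Pool.Agent.HMU.Sadd
import Pool.Agent.HMU.PD
import Pool.Agent.HMU.Two
import Pool.Agent.HMU.LM
import Pool.Agent.HMU.Esig
import Pool.Agent.HMU.Ered
import Pool.Agent.HMU.Ent
import Pool.Agent.HMU.MG1
import Pool.Agent.HMU.MG2
import Pool.Agent.HMU.MGL
import Pool.Agent.HMU.BlkR
import Pool.Agent.HMU.BlkL
import Pool.Agent.HMU.TpM
import Pool.Agent.HMU.LeafP
import Pool.Agent.HMU.Leaf
import Pool.Agent.HMU.Chunk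
import Pool.Agent.HMU.ParG
import Pool.Agent.HMU.GoodA
import Pool.Agent.HMU.FinA

/-! HMU, module `Main`: the assembly. -/

set_option autoImplicit false

namespace Pool.Agent.HMU

open Pool.Agent.HMA Pool.Agent.HMT Pool.Agent.HMS

theorem mUSB : S_USB := tUSB tCheb
theorem mSadd : S_Sadd := tSadd mCone1
theorem mPD : S_PD := tPD tCheb
theorem mTwo : S_Two := tTwo mPD
theorem mLM : S_LM := tLM mUSB mTwo
theorem mEsig : S_Esig := tEsig mUSB mSadd mLM
theorem mEred : S_Ered := tEred mUSB mEsig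
theorem mEnt : S_Ent := tEnt mUSB tCheb mFullM mCone1 mCone2
theorem mMG1 : S_MG1 := tMG1 mUSB mEnt mFullM
theorem mMG2 : S_MG2 := tMG2 mUSB mFullM
theorem mMGL : S_MGL := tMGL mMG1 mMG2
theorem mTpM : S_TpM := tTpM tBlkR tBlkL
theorem mLeafP : S_LeafP := tLeafP mUSB mEnt mFullM mMGL mTpM mEred
theorem mLeaf : S_Leaf := tLeaf tTt tTriP mLeafP
theorem mChunk : S_Chunk := tChunk mLt
theorem mParG : S_ParG := tParG mCyc mLeaf mChunk
theorem mGoodA : S_GoodA := tGoodA tPp mCyc mMrgP mUnifP mCG mSpl mParG tNrm tAlr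
theorem mFinA : S_FinA :=
  tFinA mGoodA mGoodD mLinW mClsS tTt mEll tClsG tUnt mPW mAdjP tMapW mRead

end Pool.Agent.HMU
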