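import Pool.Agent.HMU.Defs

/-!
# HMU, Spec: the statements of the modules

THEOREM. Let `L` be a closed word of `6 k` parallel tangles in alternating columns, the strands not all of
the same direction. Then `gg (tr3 ξ L)` is a power of `ξ` times a full polynomial (`S_ParG`).

PROOF. A period of six tangles has, after the gauge `ga`, the `2 x 2` matrix `LR x = Lm * Rm` over `ℤ[u]`, whose
entries are products of the first components of products of the data. `gg` is the trace of the product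
of these matrices minus `eD * (eP true + eP false)` (`S_TpM`). In the trace the two constant paths are `eA`
and `eB`; the path which changes the state in every factor is full, all other paths are in the cone
(`S_MG1`, `S_MG2`, `S_MGL`). It remains to show that `EE = eA + eB - eD * (eP true + eP false)` is in the cone
(`S_Ered`). `EE` is linear in every tangle, so the tangles may be taken to be rows of crossings `σ^k`
(`S_Esig`), `(σ^m σ^n).1 = S(m+n)`. THE EXCHANGE LEMMA (`S_LM`): for numbers `b_i` and integers `s_i` there is an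
index `m` such that `∏ S(|s_i| + b_i) - S(|∑ s_i| + b_m) ∏_(i ≠ m) S(b_i)` is in the cone; for two factors
it is `S_Two`. So `EE` is, modulo the cone, `ρ ρ'` times
`S(V+b) S(x) + S(V+x) S(b) - (ξ^V + ξ^(-V)) S(b) S(x) = S(V) S(b+x)` (`S_Sadd`).

Every module proves one `S_..`; modules which use other statements take them as hypotheses (named in the
docstring, in this order; HMA and HMS statements are written with `HMA.`, `HMS.` in the docstring).
Notation: `κ = kap d ξ`, `κ⁻¹ = kap (!d) ξ`, `u = ξ + ξ⁻¹ = κ + κ⁻¹`. `HMA.ev ξ` is a ring homomorphism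
`ℤ[X] → ℝ` (`unfold ev`, `map_mul`, `map_add`, ..). `pm` is commutative and associative.
-/

namespace Pool.Agent.HMU

open Polynomial Matrix Pool.Agent.HMA Pool.Agent.HMT Pool.Agent.HMS

/-! ## Part 1: polynomials -/

/-- Module `USB` (uses `HMA.S_Cheb`). Closure inductions. (2): for generators `SS k`, `SS k'` the product is
in `Uni (k + k')` (`S_Cheb` (2), `SS k ∈ Uni k`), and `Uni (k + k') ≤ US (a + b) (c + d)`. (5): `Sn 0 = 0`, `Sn (n+1) = SS n`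
(`(sg (n + 1)).1 = SS n`: induction in steps of two, see `HMA.S_Cone1` (1)). -/
def S_USB : Prop :=
  (∀ (N c : ℕ) (F : ℤ[X]), F ∈ Uni N ↔ F ∈ US (N + c) c) ∧
  (∀ (a b c d : ℕ) (F G : ℤ[X]), F ∈ US a c → G ∈ US b d → F * G ∈ US (a + b) (c + d)) ∧
  (∀ (N c i : ℕ) (F : ℤ[X]), F ∈ US N (c + 2 * i) → F ∈ US N c) ∧
  (∀ (N c i : ℕ) (F : ℤ[X]), F ∈ US N c → F ∈ US (N + 2 * i) c) ∧
  (∀ n : ℕ, Sn n ∈ US n 1)

/-- Module `Sadd` (uses `HMA.S_Cone1`). (3): `S(m+n) = κ^m S(n) + κ^(-n) S(m)`, induction on `m` (or `n`) in steps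
of two. (4), (5): `κ² = u κ - 1`. (6): by (3) `S(V+b) = κ^(-V) S(b) + κ^b S(V)`,
`S(V+x) = κ^V S(x) + κ^(-x) S(V)`, `S(b+x) = κ^b S(x) + κ^(-x) S(b)`, `κ = ξ`. -/
def S_Sadd : Prop :=
  (∀ n : ℕ, Sn (n + 1) = SS n) ∧ Sn 0 = 0 ∧
  (∀ (c : Bool) (m n : ℕ) (ξ : ℝ), 0 < ξ →
    ev ξ (Sn (m + n)) = kap c ξ ^ m * ev ξ (Sn n) + kap (!c) ξ ^ n * ev ξ (Sn m)) ∧
  (∀ (c : Bool) (k : ℕ) (ξ : ℝ), 0 < ξ → phi c ξ (sg k) = kap c ξ ^ k) ∧
  (∀ (c : Bool) (x y : V) (ξ : ℝ), 0 < ξ → phi c ξ (pm x y) = phi c ξ x * phi c ξ y) ∧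
  (∀ (W b x : ℕ) (ξ : ℝ), 0 < ξ →
    ev ξ (Sn (W + b)) * ev ξ (Sn x) + ev ξ (Sn (W + x)) * ev ξ (Sn b) -
      (kap true ξ ^ W + kap false ξ ^ W) * (ev ξ (Sn b) * ev ξ (Sn x)) =
    ev ξ (Sn W) * ev ξ (Sn (b + x))) ∧
  (∀ k l : ℕ, (pm (sg k) (sg l)).1 = Sn (k + l))

/-- Module `PD` (uses `HMA.S_Cheb`). First `SS (a+1) * SS (b+1) = SS a * SS b + SS (a+b+2)` (induction on `a` in steps
of two, `SS (k+2) = X * SS (k+1) - SS k`). (1) follows by induction on `j` (if `m = 0` or `n = 0` the subtrahend is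
`0`). (2): for `m = 0` clear; otherwise remove `m - 1` from all indices:
`SS (a+j) * SS b - SS a * SS (b+j) = SS j * SS (b-a) - SS (j+b-a)` for `a ≤ b`, and `S_Cheb` (1). -/
def S_PD : Prop :=
  (∀ m n j : ℕ, Sn (m + j) * Sn (n + j) - Sn m * Sn n ∈ US (m + n + 2 * j) 2) ∧
  (∀ m n j : ℕ, m ≤ n → Sn (m + j) * Sn n - Sn m * Sn (n + j) ∈ US (m + n + j) 2)

/-- Module `Two` (uses `S_PD`). `s`, `s'` of the same sign: if `b ≤ b'` the second claim (`S_PD` (2) with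
`m = b`, `n = |s'| + b'`, `j = |s|`), otherwise the first one. Different signs: if `|s'| ≤ |s|` the first claim
(`S_PD` (1) with `m = |s| - |s'| + b`, `n = b'`, `j = |s'|`), otherwise the second one. -/
def S_Two : Prop := ∀ (b b' : ℕ) (s s' : ℤ),
  (Sn (s.natAbs + b) * Sn (s'.natAbs + b') - Sn ((s + s').natAbs + b) * Sn b' ∈
    US (s.natAbs + b + (s'.natAbs + b')) 2) ∨
  (Sn (s.natAbs + b) * Sn (s'.natAbs + b') - Sn b * Sn ((s + s').natAbs + b') ∈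
    US (s.natAbs + b + (s'.natAbs + b')) 2)

/-- Module `LM` (uses `S_USB`, `S_Two`): the exchange lemma. Induction on `l`. One element: `ρ = 1` (`US 0 0`). Step
`z :: l'` with `b'`, `r'`, `ρ'` for `l'`, `S'` the sum of `l'`: apply `S_Two` to `z.2`, `b'`, `z.1`, `S'`. First case:
`b = z.2`, `ρ = S(b') ρ'`; second case: `b = b'`, `ρ = S(z.2) ρ'`. The difference is
`S(|z.1|+z.2) [∏' - S(|S'|+b') ρ'] + [S_Two] ρ'`; use that `∑ |s_i| - |∑ s_i|` is even and nonnegative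
(`S_USB` (4)). -/
def S_LM : Prop := ∀ l : List (ℤ × ℕ), l ≠ [] → ∃ (b r : ℕ) (ρ : ℤ[X]),
  b + r = (l.map Prod.snd).sum ∧ ρ ∈ US r (l.length - 1) ∧
  (l.map fun z => Sn z.2).prod = Sn b * ρ ∧
  (l.map fun z => Sn (z.1.natAbs + z.2)).prod - Sn ((l.map Prod.fst).sum.natAbs + b) * ρ ∈
    US (l.map fun z => z.1.natAbs + z.2).sum l.length

/-- Module `Esig` (uses `S_USB`, `S_Sadd`, `S_LM`). `q = []`: `EE = 0`. Otherwise let `s_i = ± v_i` (`+` if
`q_i.1 = true`), `W = |∑ s_i|`. `eA = ∏ S(v+b) * ∏ S(x)`, `eB = ∏ S(v+x) * ∏ S(b)`, `eD = ∏ S(b) * ∏ S(x)`,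
`eP true + eP false = ξ^W + ξ^(-W)` (`S_Sadd` (4)). `S_LM` for the pairs `(s_i, b_i)` gives `b`, `ρ`, and for the
pairs `(s_i, x_i)` it gives `x`, `ρ'`; so with `U₁`, `U₂` in the cone `∏ S(v+b) = S(W+b) ρ + U₁`,
`∏ S(v+x) = S(W+x) ρ' + U₂`, and `EE = ρ ρ' S(W) S(b+x) + U₁ ∏ S(x) + U₂ ∏ S(b)` by `S_Sadd` (6). -/
def S_Esig : Prop := ∀ q : List (Bool × ℕ × ℕ × ℕ), ∃ F ∈ US (tot q) (2 * q.length),
  ∀ ξ : ℝ, 0 < ξ → EE ξ (q.map sU) = ev ξ F

/-- Module `Ered` (uses `S_USB`, `S_Esig`). More generally for `q.map sU ++ l` with `UK l N`: there is `F` in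
`US (tot q + N) (2 * (q.length + l.length))`. Induction on `l`, `q` arbitrary: `EE (l₁ ++ u :: l₂)` is linear in `u.v`,
`u.b`, `u.x`; closure inductions for `u.v ∈ KK E₁` (keeping `u.b`, `u.x` general), then for `u.b`, then for `u.x` (the
set of the values `w` of this coordinate for which an `F` exists is closed under sums), for generators
`P σ^k` the factors `P` can be taken out (`ev ξ P`, and `P ∈ Uni e = US e 0` gives `P * F` in
`US (e + ..) (..)`), and the unit `⟨c, σ^i, σ^j, σ^k⟩` is appended to `q`. -/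
def S_Ered : Prop := ∀ (l : List Un) (N : ℕ), UK l N → ∃ F ∈ US N (2 * l.length),
  ∀ ξ : ℝ, 0 < ξ → EE ξ l = ev ξ F

/-! ## Part 2: the entries -/

/-- Module `Ent` (uses `S_USB`, `HMA.S_Cheb`, `HMA.S_FullM`, `HMA.S_Cone1`, `HMA.S_Cone2`). `pm x y` is in `FullK`
(`S_Cone2` (3)), its first component is full (2), a full polynomial of type `p`, `q` is in
`Uni (p + q) = US (p + q + 1) 1`. The last claim: `P σ^(k+1)` is in `KK (p + q + 1)`. -/
def S_Ent : Prop :=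
  (∀ (a b : ℕ) (F : ℤ[X]), Full a b F → Full b a F) ∧
  (∀ (p q p' q' p'' q'' : ℕ) (x y z : V), FullK p q x → FullK p' q' y → FullK p'' q'' z →
    Full (p + p' + p'' + 2) (q + q' + q'') (pm (pm x y) z).1 ∧
    (pm (pm x y) z).1 ∈ US (p + q + 1 + (p' + q' + 1) + (p'' + q'' + 1)) 1 ∧
    (pm y x).1 * z.1 ∈ US (p + q + 1 + (p' + q' + 1) + (p'' + q'' + 1)) 2 ∧
    (pm y z).1 * x.1 ∈ US (p + q + 1 + (p' + q' + 1) + (p'' + q'' + 1)) 2 ∧
    x.1 * y.1 * z.1 ∈ US (p + q + 1 + (p' + q' + 1) + (p'' + q'' + 1)) 3) ∧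
  (∀ (p q : ℕ) (x : V), FullK p q x → x ∈ KK (p + q + 1))

/-- Module `MG1` (uses `S_USB`, `S_Ent`, `HMA.S_FullM`): one period. `LR 0 0 = L 0 0 * R 0 0 + L 0 1 * R 1 0`, the first
product is `eA`, the second one is full (of type `(p₃ + p₄ + p₅, q₃ + q₄ + q₅ + 2)` times
`(p₀ + p₁ + p₂ + 2, q₀ + q₁ + q₂)`); `LR 1 1 = L 1 0 * R 0 1 + L 1 1 * R 1 1`, the second product is `eB`. -/
def S_MG1 : Prop := ∀ (x : Pd) (p q : Fin 6 → ℕ), PK1 x p q →
  MG 1 (∑ i, p i + 2) (∑ i, q i + 2) (eA (units [x])) (eB (units [x])) (LR x)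

/-- Module `MG2` (uses `S_USB`, `HMA.S_FullM`): products. For example the entry `0, 0` of `T * M` is
`(c₀ + G + U) (c₀' + G' + U') + T 0 1 * M 1 0`, the new full summand is `G * G'`. (From `MG`: `T 0 0` is in
`US _ (2 k)`, `T 1 1` in `US _ (2 k + 2)` as `1 ≤ k`, a full polynomial of type `P`, `Q` is in
`Uni (P + Q) = US (P + Q + 2 k) (2 k)`.) -/
def S_MG2 : Prop := ∀ (k P Q P' Q' : ℕ) (c₀ c₁ c₀' c₁' : ℤ[X]) (T M : Matrix (Fin 2) (Fin 2) ℤ[X]),
  1 ≤ k → MG k P Q c₀ c₁ T → MG 1 P' Q' c₀' c₁' M →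
  MG (k + 1) (P + P') (Q + Q') (c₀ * c₀') (c₁ * c₁') (T * M)

/-- Module `MGL` (uses `S_MG1`, `S_MG2`): induction on `l`. -/
def S_MGL : Prop := ∀ (l : List Pd) (P Q : ℕ), l ≠ [] → PK l P Q →
  MG l.length P Q (eA (units l)) (eB (units l)) (TM l)

/-! ## Part 3: the triples -/

/-- Module `BlkR`. With `x = (A₀, B₀)`, `y = (A₁, B₁)`, `z = (A₂, B₂)` the matrices `rho` of the three factors are
`!![κ A₂, 0; κ⁻¹ A₂ + B₂, κ⁻¹ A₂]`, `!![κ⁻¹ A₁ + B₁, κ⁻¹ A₁; 0, κ A₁ + B₁]`, `!![κ⁻¹ A₀, 0; κ A₀ + B₀, κ A₀]`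
(`rho` is multiplicative for constant row sums, `HMS.SymLAux.rho_mul`; or multiply out). `u = κ + κ⁻¹`. -/
def S_BlkR : Prop := ∀ (d : Bool) (ξ : ℝ) (x y z : V), 0 < ξ →
  (∀ i, (tR d ξ x y z).1 i 0 + (tR d ξ x y z).1 i 1 + (tR d ξ x y z).1 i 2 = (tR d ξ x y z).2.1) ∧
  rho (tR d ξ x y z).1 = ga d ξ (Rm x y z) ∧
  (tR d ξ x y z).2.1 = ev ξ (x.1 * z.1) * phi (!d) ξ y ∧
  (tR d ξ x y z).2.2 = ev ξ (x.1 * z.1) * phi d ξ y

/-- Module `BlkL`. The matrices `rho` of the three factors are `!![κ A₂, κ A₂ + B₂; 0, κ⁻¹ A₂]`,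
`!![κ⁻¹ A₁ + B₁, 0; κ A₁, κ A₁ + B₁]`, `!![κ⁻¹ A₀, κ⁻¹ A₀ + B₀; 0, κ A₀]`. -/
def S_BlkL : Prop := ∀ (d : Bool) (ξ : ℝ) (x y z : V), 0 < ξ →
  (∀ i, (tL d ξ x y z).1 i 0 + (tL d ξ x y z).1 i 1 + (tL d ξ x y z).1 i 2 = (tL d ξ x y z).2.1) ∧
  rho (tL d ξ x y z).1 = ga d ξ (Lm x y z) ∧
  (tL d ξ x y z).2.1 = ev ξ (z.1 * x.1) * phi d ξ y ∧
  (tL d ξ x y z).2.2 = ev ξ (z.1 * x.1) * phi (!d) ξ y

/-- Module `TpM` (uses `S_BlkR`, `S_BlkL`). By induction on `l`: the row sums of `(tp d ξ l).1` are `(tp d ξ l).2.1`,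
`rho (tp d ξ l).1 = ga d ξ (TM l)` (`ga` is multiplicative, `HMS.SymLAux.rho_mul`, `rho_one`),
`(tp d ξ l).2.1 = ev ξ (eD (units l)) * eP d ξ (units l)`, `(tp d ξ l).2.2` the same with `!d`. Then
`gg t = rho 0 0 + rho 1 1 - n - n'` (`HMS.SymLAux.gg_eq`). -/
def S_TpM : Prop := ∀ (d : Bool) (ξ : ℝ) (l : List Pd), 0 < ξ →
  gg (tp d ξ l) = ev ξ (TM l 0 0) + ev ξ (TM l 1 1) -
    ev ξ (eD (units l)) * (eP true ξ (units l) + eP false ξ (units l))

/-- Module `LeafP` (uses `S_USB`, `S_Ent`, `HMA.S_FullM`, `S_MGL`, `S_TpM`, `S_Ered`). `UK (units l) (P + Q + 2 k)`, `k` the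
length of `l`, and `units l` has length `2 k`. So `gg = ev (G + U + U' + F)`, `F ∈ US (P + Q + 2 k) (4 k)`, everything
except `G` in `US (P + Q + 2 k) (2 k) = Uni (P + Q)`. -/
def S_LeafP : Prop := ∀ (d : Bool) (l : List Pd) (P Q : ℕ), l ≠ [] → PK l P Q →
  ∃ F : ℤ[X], Full P Q F ∧ ∀ ξ : ℝ, 0 < ξ → gg (tp d ξ l) = ev ξ F

/-! ## Part 4: the words -/

/-- Module `Leaf` (uses `HMS.S_Tt`, `HMS.S_TriP`, `S_LeafP`). By induction on `ys` there are `l` (of the same length), `P`,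
`Q`, `K` with `PK l P Q`, `P - Q = sigL (ys.flatMap sixL)` and `tr3 ξ (ys.flatMap sixL) = ξ ^ K • tp d ξ l`
(`HMS.S_Tt` (1); `lt3 ξ (c, y) = ξ ^ K • pb c d ξ ..` by the data, `S_TriP` (4)). Then `gg (k • t) = k * gg t`. -/
def S_Leaf : Prop := ∀ (d : Bool) (ys : List (Fin 6 → Tangle)), ys ≠ [] → (∀ y ∈ ys, D6 d y) →
  Good (ys.flatMap sixL)

/-- Module `Chunk` (uses `HMS.S_Lt`). Induction on `k`. The states above the six letters are `(d, !d, d)`,
`(d, d, !d)`, `(d, d, !d)`, `(d, !d, d)`, `(!d, d, d)`, `(!d, d, d)`, and then again `(d, !d, d)`; `S_Lt` gives the data (a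
letter of pattern c does not change the state, so it is excluded if the directions are different). -/
def S_Chunk : Prop := ∀ (k : ℕ) (L : List Ltr) (d : Bool) (s' : St), altB false L → L.length = 6 * k →
  PPth L (d, !d, d) s' →
  ∃ ys : List (Fin 6 → Tangle), ys.length = k ∧ L = ys.flatMap sixL ∧ ∀ y ∈ ys, D6 d y

/-- Module `ParG` (uses `HMS.S_Cyc`, `S_Leaf`, `S_Chunk`): as `HMS.S_Par` for all lengths. After two letters (columns `true`,
`false`) the state is `swp false (swp true s)`, a rotation of the three directions, so `3` divides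
`L.length / 2` (`s` is not uniform). Let `s = (d, d, !d)`, `(d, !d, d)` or `(!d, d, d)`. Let `l₁` be the first 5, 3 or 1 letters,
`L = l₁ ++ l₂`; the state after `l₁` is `(d, !d, d)` and the next letter is in the column `false`. So `l₂ ++ l₁`
satisfies the hypotheses of `S_Chunk`. -/
def S_ParG : Prop := ∀ (L : List Ltr) (s : St), altB true L → Even L.length → L ≠ [] →
  PPth L s s → ¬ Unif s → Good L

end Pool.Agent.HMU
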